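import Pool.Agent.H89.ZN.Def

/-!
# [H89 ZN Amp] THEOREM Z (MP_e49dc9_ag): the weak form of nefness implies the strong form

`amp_box`: let `p` be nef in the weak form (`Nfr A G p`).  For every `B` there is `C` such that `A ^ C * ∏ G i ^ n i` is ample for all `t ≥ 0` and `n` with
`|n i - t p i| ≤ B`.  `rn_of`: so `Rn G p A` (`t` a natural number, `B = 1`).

PROOF.  (1) There is `K : ℕ` with `A ^ K * G i` and `A ^ K * (G i)⁻¹` ample for all `i` (`exists_n` in `H36/TQ/Cls.lean`).  So for integers `v i` and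
`j > K * ∑ |v i|` (natural numbers: `K * ∑ (v i).natAbs < j`) the divisor `A ^ j * ∏ G i ^ v i` is ample: it is `A ^ (j - K ∑ |v i|) * ∏ (A ^ K * G i ^ (± 1)) ^ |v i|`
(products of ample divisors and of powers with exponent possibly `0`: `ample_mul`, `ample_pow`, `nf_ample`, `nf_mul`/induction over a `Finset`: the statement
`Nf (A ^ (K * (v i).natAbs) * G i ^ v i)` for each `i` and `Nf` of the product; `Nf N : ∀ A, Ample A → Ample (A * N)`).
(2) Let `B' := K * r * (B + 1) + 2`, `C := ⌈B'⌉₊ + 1`.  Given `t` and `n`.  If `t = 0` use (1): `|n i| ≤ B`.  Let `t > 0`; `ε := 1 / (t * (r * K + 1) * 4)`; choose `e` (an index of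
the sequence in `Nfr`) with `|a e i / s e - p i| ≤ ε` for all `i` and `m e / s e ≤ ε`.  For `q : ℕ` large let `u := ⌊q t / s e⌋₊`: the divisor
`(A ^ C * ∏ G i ^ n i) ^ q = (∏ G i ^ a e i * A ^ m e) ^ u * (A ^ (C q - u m e) * ∏ G i ^ (q n i - u a e i))`, where `u ≤ q t / s e`, `u > q t / s e - 1`:
`|q n i - u a e i| ≤ q |n i - t p i| + |q t p i - u a e i|` and `|q t p i - u a e i| ≤ q t |p i - a e i / s e| + |q t / s e - u| |a e i| ≤ q t ε + |a e i|`, `u m e ≤ q t ε`.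
So `K ∑ |q n i - u a e i| ≤ q K r (B + t ε) + K ∑ |a e i| < C q - u m e` for `q` large, because `K r (B + t ε) + t ε ≤ K r (B + 1) + 1 < C`.  By (1) the second factor is ample,
the first is ample or `1` (`u = 0`), so the `q`-th power of `A ^ C * ∏ G i ^ n i` is ample, so it is ample (grep for a lemma: a divisor with an ample power
`Ample (D ^ q)`, `1 ≤ q`, is ample; it follows from the definition of `Ample` in `H54/RV`, where only multiples of `D` occur).
-/

set_option autoImplicit false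

namespace Pool.Agent.H89.ZN

open Pool.Agent.H54.RV Pool.Agent.H83.TU Pool.Agent.H83.TK Pool.Agent.H24.VP Pool.Agent.H39.TQ Pool.Agent.H36.TZ
  Pool.Agent.H36.TQ Filter Topology

variable {k K : Type} [Field k] [Field K] [Algebra k K] {X : Mod k K} {r : ℕ} {A : Cart X} {G : Fin r → Cart X}
  {p : Fin r → ℝ}

private theorem nf_one' : Nf (1 : Cart X) := fun A hA => by rwa [mul_one]

private theorem nf_mul' {M N : Cart X} (hM : Nf M) (hN : Nf N) : Nf (M * N) := fun A hA => by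
  rw [← mul_assoc]
  exact hN _ (hM _ hA)

private theorem nf_pow' {N : Cart X} (hN : Nf N) (n : ℕ) : Nf (N ^ n) := by
  induction n with
  | zero =>
    rw [pow_zero]
    exact nf_one'
  | succ n ih =>
    rw [pow_succ]
    exact nf_mul' ih hN

private theorem nf_prod' {ι : Type} (s : Finset ι) {F : ι → Cart X} (hF : ∀ i, Nf (F i)) :
    Nf (∏ i ∈ s, F i) := by
  classical
  induction s using Finset.induction_on with
  | empty =>
    rw [Finset.prod_empty]
    exact nf_one'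
  | insert i s hi ih =>
    rw [Finset.prod_insert hi]
    exact nf_mul' (hF i) ih

private theorem nf_z (hX : IsVar X) {K₀ : ℕ} {D : Cart X} (h1 : Ample (A ^ K₀ * D))
    (h2 : Ample (A ^ K₀ * D⁻¹)) (v : ℤ) : Nf (A ^ (K₀ * v.natAbs) * D ^ v) := by
  rcases le_total 0 v with hv | hv
  · obtain ⟨n, rfl⟩ := Int.eq_ofNat_of_zero_le hv
    have e : A ^ (K₀ * ((n : ℤ)).natAbs) * D ^ (n : ℤ) = (A ^ K₀ * D) ^ n := by
      rw [Int.natAbs_natCast, zpow_natCast, mul_pow, pow_mul]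
    rw [e]
    exact nf_pow' (nf_ample hX h1) n
  · obtain ⟨n, hn⟩ := Int.eq_ofNat_of_zero_le (neg_nonneg.2 hv)
    have hv' : v = -(n : ℤ) := by omega
    subst hv'
    have e : A ^ (K₀ * (-(n : ℤ)).natAbs) * D ^ (-(n : ℤ)) = (A ^ K₀ * D⁻¹) ^ n := by
      rw [Int.natAbs_neg, Int.natAbs_natCast, zpow_neg, zpow_natCast, mul_pow, pow_mul, inv_pow]
    rw [e]
    exact nf_pow' (nf_ample hX h2) n

private theorem amp1 (hX : IsVar X) (hA : Ample A) {K₀ : ℕ}
    (hK : ∀ i, Ample (A ^ K₀ * G i) ∧ Ample (A ^ K₀ * (G i)⁻¹)) (v : Fin r → ℤ) (j : ℕ)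
    (hj : K₀ * ∑ i, (v i).natAbs < j) : Ample (A ^ j * pw G v) := by
  have e : A ^ j * pw G v =
      A ^ (j - K₀ * ∑ i, (v i).natAbs) * ∏ i, (A ^ (K₀ * (v i).natAbs) * G i ^ v i) := by
    rw [Finset.prod_mul_distrib, Finset.prod_pow_eq_pow_sum, ← Finset.mul_sum, ← mul_assoc,
      ← pow_add, Nat.sub_add_cancel hj.le]
    rfl
  rw [e]
  exact nf_prod' _ (fun i => nf_z hX (hK i).1 (hK i).2 (v i)) _
    (ample_pow A _ (by omega) hA)

theorem amp_box [CharZero k] [T0Space X.P] (h : Hyp X) (hA : Ample A) (hn : Nfr A G p) (B : ℝ) :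
    ∃ C : ℕ, ∀ (t : ℝ) (n : Fin r → ℤ), 0 ≤ t → Near p B t n → Ample (A ^ C * pw G n) := by
  obtain ⟨K₀, hK⟩ := exists_n h.var hA G
  obtain ⟨a, m, s, hs, hamp, hlim, hlim0⟩ := hn
  refine ⟨⌈(K₀ : ℝ) * r * (|B| + 1)⌉₊ + 2, fun t n ht hN => ?_⟩
  obtain ⟨C, hC⟩ : ∃ C : ℕ, C = ⌈(K₀ : ℝ) * r * (|B| + 1)⌉₊ + 2 := ⟨_, rfl⟩
  rw [← hC]
  have hCr : (K₀ : ℝ) * r * (|B| + 1) + 2 ≤ C := by
    rw [hC]
    push_cast
    have := Nat.le_ceil ((K₀ : ℝ) * r * (|B| + 1))
    linarith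
  have hK0 : (0 : ℝ) ≤ K₀ := Nat.cast_nonneg _
  have hr0 : (0 : ℝ) ≤ r := Nat.cast_nonneg _
  have hB0 : 0 ≤ |B| := abs_nonneg B
  have hKr : (0 : ℝ) ≤ K₀ * r := mul_nonneg hK0 hr0
  have hN' : ∀ i, |(n i : ℝ) - t * p i| ≤ |B| := fun i => (hN i).trans (le_abs_self B)
  rcases ht.eq_or_lt with rfl | ht
  · refine amp1 h.var hA hK n C ?_
    have h1 : ∀ i, ((n i).natAbs : ℝ) ≤ |B| := by
      intro i
      have h2 := hN' i
      rw [zero_mul, sub_zero] at h2
      rw [Nat.cast_natAbs, Int.cast_abs]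
      exact h2
    have h3 : ((K₀ * ∑ i, (n i).natAbs : ℕ) : ℝ) < (C : ℝ) := by
      push_cast
      calc (K₀ : ℝ) * ∑ i, ((n i).natAbs : ℝ) ≤ K₀ * ∑ _i : Fin r, |B| :=
            mul_le_mul_of_nonneg_left (Finset.sum_le_sum fun i _ => h1 i) hK0
        _ = K₀ * r * |B| := by
            rw [Finset.sum_const, Finset.card_univ, Fintype.card_fin, nsmul_eq_mul]
            ring
        _ < C := by nlinarith
    exact_mod_cast h3
  -- the main case
  obtain ⟨ε, hε⟩ : ∃ ε : ℝ, ε = 1 / (t * ((r : ℝ) * K₀ + 1) * 4) := ⟨_, rfl⟩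
  have hrK : (0 : ℝ) < (r : ℝ) * K₀ + 1 := by positivity
  have hε0 : 0 < ε := by
    rw [hε]
    positivity
  have htε : t * ε * ((r : ℝ) * K₀ + 1) = 1 / 4 := by
    rw [hε]
    field_simp
  have hev : ∀ᶠ e in atTop, (∀ i, |(a e i : ℝ) / s e - p i| ≤ ε) ∧ (m e : ℝ) / s e ≤ ε := by
    refine Filter.Eventually.and ?_ ?_
    · rw [Filter.eventually_all]
      intro i
      have h1 := (hlim i).sub_const (p i)
      rw [sub_self] at h1
      have h2 := h1.abs
      rw [abs_zero] at h2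
      exact (h2.eventually (gt_mem_nhds hε0)).mono fun e he => he.le
    · exact (hlim0.eventually (gt_mem_nhds hε0)).mono fun e he => he.le
  obtain ⟨e, he1, he2⟩ := hev.exists
  have hse := hs e
  have hampe := hamp e
  obtain ⟨Sa, hSa⟩ : ∃ Sa : ℕ, Sa = ∑ i, (a e i).natAbs := ⟨_, rfl⟩
  obtain ⟨q, hq⟩ : ∃ q : ℕ, q = K₀ * Sa + 1 := ⟨_, rfl⟩
  have hq1 : 1 ≤ q := by omega
  have hq0 : (0 : ℝ) < q := by exact_mod_cast hq1
  obtain ⟨u, hu⟩ : ∃ u : ℕ, u = ⌊(q : ℝ) * t / s e⌋₊ := ⟨_, rfl⟩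
  have hqt : 0 ≤ (q : ℝ) * t / s e := by positivity
  have hu1 : (u : ℝ) ≤ (q : ℝ) * t / s e := by
    rw [hu]
    exact Nat.floor_le hqt
  have hu2 : (q : ℝ) * t / s e - 1 ≤ u := by
    rw [hu]
    exact (Nat.sub_one_lt_floor _).le
  have hum : (u : ℝ) * m e ≤ q * (t * ε) := by
    have hm0 : (0 : ℝ) ≤ m e := Nat.cast_nonneg _
    calc (u : ℝ) * m e ≤ (q : ℝ) * t / s e * m e := mul_le_mul_of_nonneg_right hu1 hm0
      _ = q * t * ((m e : ℝ) / s e) := by ring
      _ ≤ q * t * ε := mul_le_mul_of_nonneg_left he2 (by positivity)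
      _ = q * (t * ε) := by ring
  have hbd : ∀ i, |((q * n i - u * a e i : ℤ) : ℝ)| ≤ q * |B| + q * (t * ε) + |(a e i : ℝ)| := by
    intro i
    have e1 : ((q * n i - u * a e i : ℤ) : ℝ) = q * ((n i : ℝ) - t * p i) +
        q * t * (p i - (a e i : ℝ) / s e) + ((q : ℝ) * t / s e - u) * a e i := by
      push_cast
      field_simp
      ring
    rw [e1]
    refine (abs_add_le _ _).trans (add_le_add ((abs_add_le _ _).trans (add_le_add ?_ ?_)) ?_)
    · rw [abs_mul, abs_of_pos hq0]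
      exact mul_le_mul_of_nonneg_left (hN' i) hq0.le
    · rw [abs_mul, abs_of_pos (mul_pos hq0 ht), abs_sub_comm]
      calc (q : ℝ) * t * |(a e i : ℝ) / s e - p i| ≤ q * t * ε :=
            mul_le_mul_of_nonneg_left (he1 i) (by positivity)
        _ = q * (t * ε) := by ring
    · rw [abs_mul]
      refine mul_le_of_le_one_left (abs_nonneg _) ?_
      rw [abs_le]
      constructor <;> linarith
  have hsumr : ((K₀ * ∑ i, (q * n i - u * a e i).natAbs : ℕ) : ℝ) + ((u * m e : ℕ) : ℝ) <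
      ((C * q : ℕ) : ℝ) := by
    push_cast
    have h1 : ∑ i, ((q * n i - u * a e i).natAbs : ℝ) ≤
        ∑ i : Fin r, (q * |B| + q * (t * ε) + |(a e i : ℝ)|) := by
      refine Finset.sum_le_sum fun i _ => ?_
      rw [Nat.cast_natAbs, Int.cast_abs]
      exact hbd i
    have h2 : ∑ i : Fin r, (q * |B| + q * (t * ε) + |(a e i : ℝ)|) =
        r * (q * |B| + q * (t * ε)) + Sa := by
      rw [Finset.sum_add_distrib, Finset.sum_const, Finset.card_univ, Fintype.card_fin,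
        nsmul_eq_mul, hSa]
      push_cast
      simp only [Nat.cast_natAbs, Int.cast_abs]
    rw [h2] at h1
    have h3 : (K₀ : ℝ) * ∑ i, ((q * n i - u * a e i).natAbs : ℝ) ≤
        K₀ * (r * (q * |B| + q * (t * ε)) + Sa) := mul_le_mul_of_nonneg_left h1 hK0
    have h4 : (K₀ : ℝ) * Sa + 1 = q := by
      rw [hq]
      push_cast
      ring
    have h5 : (K₀ : ℝ) * (r * (q * |B| + q * (t * ε)) + Sa) + q * (t * ε) =
        q * (K₀ * r * |B| + t * ε * ((r : ℝ) * K₀ + 1)) + K₀ * Sa := by ring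
    rw [htε] at h5
    have h6 : (q : ℝ) * (K₀ * r * (|B| + 1) + 2) ≤ C * q := by
      rw [mul_comm]
      exact mul_le_mul_of_nonneg_right hCr hq0.le
    have h7 : 0 ≤ (q : ℝ) * (K₀ * r) := mul_nonneg hq0.le hKr
    nlinarith
  have hsum : K₀ * ∑ i, (q * n i - u * a e i).natAbs + u * m e < C * q := by exact_mod_cast hsumr
  have hle : u * m e ≤ C * q := by omega
  have key : (A ^ C * pw G n) ^ q = (pw G (a e) * A ^ m e) ^ u *
      (A ^ (C * q - u * m e) * pw G fun i => q * n i - u * a e i) := by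
    have e1 : (A ^ m e) ^ u * A ^ (C * q - u * m e) = (A ^ C) ^ q := by
      rw [← pow_mul, ← pow_mul, ← pow_add, mul_comm (m e) u, Nat.add_sub_cancel' hle]
    have e2 : (pw G n) ^ q = (pw G (a e)) ^ u * pw G fun i => q * n i - u * a e i := by
      unfold pw
      rw [← Finset.prod_pow, ← Finset.prod_pow, ← Finset.prod_mul_distrib]
      refine Finset.prod_congr rfl fun i _ => ?_
      rw [← zpow_natCast, ← zpow_natCast, ← zpow_mul, ← zpow_mul, ← zpow_add]
      congr 1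
      ring
    have e3 : ∀ a b c d : Cart X, (a * b) * (c * d) = (c * a) * (b * d) := by
      intro a b c d
      rw [mul_comm c a, mul_assoc, mul_assoc, mul_left_comm b c d]
    rw [mul_pow, mul_pow, ← e1, e2]
    exact e3 _ _ _ _
  refine ample_of_pow _ q hq1 ?_
  rw [key, mul_comm]
  exact nf_pow' (nf_ample h.var hampe) u _ (amp1 h.var hA hK _ _ (by omega))

theorem rn_of [CharZero k] [T0Space X.P] (h : Hyp X) (hA : Ample A) (hn : Nfr A G p) : Rn G p A := by
  obtain ⟨C, hC⟩ := amp_box h hA hn 1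
  exact ⟨hA, C, fun n m hm => hC n m (Nat.cast_nonneg n) hm⟩

end Pool.Agent.H89.ZN
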