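import Pool.Agent.H89.ZN.Red

/-!
# [H89 ZN Trf] THEOREM Z (MP_e49dc9_ag): change of the presentation of a real class

`(E, y)` and `(G, p)` with `dl δ G p = dl δ E y` for all additive `δ`: `pT`, `pz`, `p3` are equal, `Pen` and `Cur` are equivalent.
-/

set_option autoImplicit false

namespace Pool.Agent.H89.ZN

open Pool.Agent.H54.RV Pool.Agent.H83.TU Pool.Agent.H83.TK Pool.Agent.H24.VP Pool.Agent.H39.TQ Pool.Agent.H36.TZ

variable {k K : Type} [Field k] [Field K] [Algebra k K] {X : Mod k K} {r m : ℕ}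
  {T : Cart X → Cart X → Cart X → ℝ} {G : Fin r → Cart X} {p : Fin r → ℝ} {E : Fin m → Cart X} {y : Fin m → ℝ}

theorem trf_pT (ht : Tri T) (hd : ∀ δ : Cart X → ℝ, (∀ U V, δ (U * V) = δ U + δ V) → dl δ G p = dl δ E y)
    (U V : Cart X) : pT T G p U V = pT T E y U V :=
  hd (fun D => T D U V) fun A B => ht.add A B U V

theorem trf_pz (ht : Tri T) (hd : ∀ δ : Cart X → ℝ, (∀ U V, δ (U * V) = δ U + δ V) → dl δ G p = dl δ E y)
    (U : Cart X) : pz T G p U = pz T E y U := by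
  have h1 : pz T G p U = pz T E y U := by
    have e1 : pz T G p U = dl (fun D => pT T G p D U) G p := rfl
    have e2 : pz T E y U = dl (fun D => pT T E y D U) E y := rfl
    rw [e1, e2, hd _ fun A B => pT_mul ht A B U]
    unfold dl
    exact Finset.sum_congr rfl fun i _ => by simp only [trf_pT ht hd]
  exact h1

theorem trf_p3 (ht : Tri T) (hd : ∀ δ : Cart X → ℝ, (∀ U V, δ (U * V) = δ U + δ V) → dl δ G p = dl δ E y) :
    p3 T G p = p3 T E y := by
  have e1 : p3 T G p = dl (fun D => pz T G p D) G p := rfl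
  have e2 : p3 T E y = dl (fun D => pz T E y D) E y := rfl
  rw [e1, e2, hd _ fun A B => pz_mul ht A B]
  unfold dl
  exact Finset.sum_congr rfl fun i _ => by simp only [trf_pz ht hd]

theorem trf_pen (ht : Tri T) (hd : ∀ δ : Cart X → ℝ, (∀ U V, δ (U * V) = δ U + δ V) → dl δ G p = dl δ E y)
    (hP : Pen T G p) : Pen T E y := by
  obtain ⟨C, h1, h2, h3⟩ := hP
  exact ⟨C, h1, by rw [← trf_pz ht hd]; exact h2, by rw [← trf_pT ht hd]; exact h3⟩

theorem trf_cur [CharZero k] {hX : IsVar X} {hg : ∃ g, Gen X g}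
    (hd : ∀ δ : Cart X → ℝ, (∀ U V, δ (U * V) = δ U + δ V) → dl δ G p = dl δ E y)
    (hC : Cur hX hg G p) : Cur hX hg E y := by
  obtain ⟨F, h1, h2, h3⟩ := hC
  refine ⟨F, h1, h2, ?_⟩
  rw [← hd, h3]
  intro U V
  rw [rf_mul hX hg F h1]
  push_cast
  ring

end Pool.Agent.H89.ZN
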