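import Pool.Agent.H89.ZN.Asm
import Pool.Agent.H89.ZN.Trf
import Pool.Agent.H89.ZN.Amp

/-!
# [H89 ZN Fin] THEOREM Z (MP_e49dc9_ag): arbitrary real nef classes

`z_of`: from the two cases `T(p,p,A) > 0` and `T(p,p,A) = 0` for coefficients which are linearly independent over `ℚ` (`Pnt`) to all real classes.
-/

set_option autoImplicit false

namespace Pool.Agent.H89.ZN

open Pool.Agent.H54.RV Pool.Agent.H83.TU Pool.Agent.H83.TK Pool.Agent.H24.VP Pool.Agent.H39.TQ Pool.Agent.H36.TZ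
  Pool.Agent.H32.TZ Filter Topology

variable {k K : Type} [Field k] [Field K] [Algebra k K] {X : Mod k K} {m : ℕ}
  {T : Cart X → Cart X → Cart X → ℝ} {l : Cart X → ℝ} {c : ℝ} {A : Cart X} {E : Fin m → Cart X} {y : Fin m → ℝ}

theorem z_of [IsAlgClosed k] [CharZero k] [T0Space X.P] (h : Hyp X) (hr : RR T l c) (hA : Ample A)
    (hn : Nfr A E y) (h3 : p3 T E y = 0) (hl : 0 < dl l E y)
    (hz : ∀ (r : ℕ) (G : Fin r → Cart X) (p : Fin r → ℝ), Pnt T l c A G p → 0 < pz T G p A →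
      Pen T G p ∨ Cur h.var h.gen G p)
    (hz0 : ∀ (r : ℕ) (G : Fin r → Cart X) (p : Fin r → ℝ), Pnt T l c A G p → pz T G p A = 0 →
      Pen T G p ∨ Cur h.var h.gen G p) : Pen T E y ∨ Cur h.var h.gen E y := by
  obtain ⟨r, p, c', hlin, hy⟩ := red_lin y
  obtain ⟨G, hG⟩ : ∃ G : Fin r → Cart X, G = fun i => ∏ j, E j ^ c' j i := ⟨_, rfl⟩
  have hd : ∀ δ : Cart X → ℝ, (∀ U V, δ (U * V) = δ U + δ V) → dl δ G p = dl δ E y := by
    intro δ hδ
    rw [hG]
    exact red_dl E y p c' hy δ hδ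
  have hnG : Nfr A G p := by
    rw [hG]
    exact nfr_red h hA E y p c' hy hn
  have hP : Pnt T l c A G p :=
    ⟨hr, rn_of h hA hnG, hlin, by rw [trf_p3 hr.tri hd]; exact h3, by rw [hd l hr.ladd]; exact hl⟩
  have h1 : Pen T G p ∨ Cur h.var h.gen G p := by
    rcases (pz_amp h hr hP.rn hA).lt_or_eq with h2 | h2
    · exact hz r G p hP h2
    · exact hz0 r G p hP h2.symm
  rcases h1 with h1 | h1
  · exact Or.inl (trf_pen hr.tri hd h1)
  · exact Or.inr (trf_cur hd h1)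

end Pool.Agent.H89.ZN
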