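import Pool.Agent.H36.TZ.Def
import Pool.Agent.H39.TQ.Itf
import Pool.Agent.H32.TZ.Itf

/-!
# [H89 ZN Def] THEOREM Z (MP_e49dc9_ag): real nef classes (definitions, on top of `H36/TZ/Def.lean`)

`G : Fin r → Cart X`, `p : Fin r → ℝ`: the real class `∑ p i • G i`.

* `dl δ G p = δ(p)` for an additive function `δ` on the divisors (`l`, `RF`, ..).
* `pw G n = ∏ i, G i ^ n i`: the integral classes in the span of the `G i`.
* `Near p B t n`: `∏ G i ^ n i = t p + w` with `w` bounded by `B`.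
* `Nfr A G p`: `p` is nef, weak form: there are ample divisors `B n = ∏ i, G i ^ a n i * A ^ m n` and `s n > 0` with `a n i / s n → p i`,
  `m n / s n → 0`.
* `Pnt T l c A G p`: the standing hypotheses: Riemann-Roch, `p` is nef, the `p i` are linearly independent over `ℚ` (so an
  integral function which vanishes at `p` vanishes at all `G i`), `T(p,p,p) = 0`, `l(p) > 0`.
* `Cur hX hg G p`: a covering family of curves `C` with `p.C = 0`.
* `Bxo T G p B C t₀`: for every `N ≥ 1` there is an integral class near `t p` with `t ≤ C N` and `0 ≤ T(p,p,.) ≤ C / N`.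
-/

set_option autoImplicit false

namespace Pool.Agent.H89.ZN

open Pool.Agent.H54.RV Pool.Agent.H83.TU Pool.Agent.H83.TK Pool.Agent.H24.VP Pool.Agent.H39.TQ Pool.Agent.H36.TZ Filter
  Topology

variable {k K : Type} [Field k] [Field K] [Algebra k K] {X : Mod k K} {r : ℕ}

/-- `δ(p)` -/
noncomputable def dl (δ : Cart X → ℝ) (G : Fin r → Cart X) (p : Fin r → ℝ) : ℝ := ∑ i, p i * δ (G i)

/-- the integral classes in the span of the `G i` -/
noncomputable def pw (G : Fin r → Cart X) (n : Fin r → ℤ) : Cart X := ∏ i, G i ^ n i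

/-- `∏ G i ^ n i = t p + w` with `w` bounded by `B` -/
def Near (p : Fin r → ℝ) (B t : ℝ) (n : Fin r → ℤ) : Prop := ∀ i, |(n i : ℝ) - t * p i| ≤ B

/-- the real class `p` is nef (weak form) -/
def Nfr (A : Cart X) (G : Fin r → Cart X) (p : Fin r → ℝ) : Prop :=
  ∃ (a : ℕ → Fin r → ℤ) (m : ℕ → ℕ) (s : ℕ → ℝ), (∀ n, 0 < s n) ∧ (∀ n, Ample (pw G (a n) * A ^ m n)) ∧
    (∀ i, Tendsto (fun n => (a n i : ℝ) / s n) atTop (𝓝 (p i))) ∧ Tendsto (fun n => (m n : ℝ) / s n) atTop (𝓝 0)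

/-- the standing hypotheses -/
structure Pnt (T : Cart X → Cart X → Cart X → ℝ) (l : Cart X → ℝ) (c : ℝ) (A : Cart X) (G : Fin r → Cart X)
    (p : Fin r → ℝ) : Prop where
  hr : RR T l c
  rn : Rn G p A
  lin : ∀ z : Fin r → ℤ, ∑ i, (z i : ℝ) * p i = 0 → z = 0
  p3 : p3 T G p = 0
  lp : 0 < dl l G p

/-- a covering family of curves `C` with `p.C = 0` -/
def Cur (hX : IsVar X) (hg : ∃ g, Gen X g) (G : Fin r → Cart X) (p : Fin r → ℝ) : Prop :=
  ∃ F : IntermediateField k K, Algebra.trdeg F K = 1 ∧ Clo F ∧ dl (fun D => (RF hX hg F D : ℝ)) G p = 0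

/-- integral classes near `p` on the right side -/
def Bxo (T : Cart X → Cart X → Cart X → ℝ) (G : Fin r → Cart X) (p : Fin r → ℝ) (B C t₀ : ℝ) : Prop :=
  ∀ N : ℕ, 1 ≤ N → ∃ (n : Fin r → ℤ) (t : ℝ), t₀ ≤ t ∧ t ≤ C * N ∧ Near p B t n ∧ 0 ≤ pz T G p (pw G n) ∧
    N * pz T G p (pw G n) ≤ C

end Pool.Agent.H89.ZN
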