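import Pool.Agent.H89.ZN.Def
import Pool.Agent.H83.TU.PO
import Pool.Agent.H39.TU.RAM

/-!
# [H89 ZN Zer] THEOREM Z (MP_e49dc9_ag): a divisor with two sections moves

`mov_zero`: if `2 ≤ h0 D 1` then there are infinitely many prime divisors along which a section of `D` vanishes: `¬ StarT D 0`.

PROOF.  Let `T` be the finite set of `StarT D 0`: outside `T` all sections `s ≠ 0` of `D` have `ord_P (s * D.eq P.η) ≤ 0`, so `= 0` (`Sec D 1 s` gives `≥ 0`).  Let `f`, `g` be
`k`-linearly independent sections of `D`.  For `a ∈ k` (infinite, algebraically closed) `s a := f + a g ≠ 0` is a section.  For a prime divisor `P` with `P.η ∈ T` the order of `s a` at `P` is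
constant for all `a` but at most one (two different `s a`, `s b` of order at least `m + 1`, `m` the minimum of the orders, would give `g` and `f` of order at least `m + 1`, and all `s a` also); so for all
`a` outside a finite set the orders of `s a` at all prime divisors with `P.η ∈ T` are the same (two `PDiv` with the same `η` have the same `P.p.R`, so the same `ord`; `T` is finite), and `0` relative to `D` outside `T`.
So for two such `a ≠ b` the function `u := s a / s b` has order `0` at all prime divisors.  `X` is factorial (`h.ufd`), so `u` and `u⁻¹` are in all local rings (grep: regular in codimension one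
implies regular: e.g. `H32/TK`, `H39/TU`, `H83/TU/PC`, `eff_of_ord` or `fac_eff` / `exists_prm` of `H24/VP`: an effective divisor without prime divisors is trivial; or use the decomposition of the effective divisors
`prin (s a) * D` and `prin (s b) * D` into prime divisors `PosB.lean`: `fac_eff`), so `u ∈ k` (global functions are constants: grep `secL 1`, `h0 1 = 1`, in `H24/TK`, `H83/TK`, `H39/TU`):
`f + a g = u (f + b g)`, against the independence.
-/

set_option autoImplicit false

namespace Pool.Agent.H89.ZN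

open Pool.Agent.H54.RV Pool.Agent.H83.TU Pool.Agent.H83.TK Pool.Agent.H24.VP Pool.Agent.H24.TV

variable {k K : Type} [Field k] [Field K] [Algebra k K] {X : Mod k K}

/-- regular in codimension one implies regular -/
private theorem reg_of_ord (h : Hyp X) {ζ : K} (hζ : ζ ≠ 0) (ho : ∀ P : PDiv X, 0 ≤ P.p.ord ζ)
    (x : X.P) : ζ ∈ X.O x := by
  obtain ⟨M, hM1, -, hM2⟩ := polar h ζ hζ
  by_cases hE : Effective M⁻¹
  · refine (polar_mem M _ x (hM2 x)).2 ?_
    have h3 := hE x
    rwa [inv_eq] at h3
  · exfalso
    obtain ⟨P, hP⟩ := exists_pdiv h M hM1 hE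
    have h1 : ζ ∈ X.O P.η := (P.mem _).2 ((ord_nonneg P.p ζ hζ).1 (ho P))
    have h4 := (polar_mem M _ P.η (hM2 P.η)).1 h1
    have h5 := (ord_nonneg P.p _ (inv_ne_zero (M.ne P.η))).2 ((P.mem _).1 h4)
    rw [ord_inv] at h5
    omega

/-- the global functions are the constants -/
private theorem const_of_reg [IsAlgClosed k] [CharZero k] (h : Hyp X) {ζ : K} (hζ : ∀ x, ζ ∈ X.O x) :
    ∃ c : k, algebraMap k K c = ζ := by
  have hGF := Pool.Agent.H20.TU.gf h.var h.gen h.tr
  have hfin : Module.Finite k (secL (1 : Cart X) 1) := hGF.1 1 1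
  have h1 : (1 : K) ∈ secL (1 : Cart X) 1 := by
    rw [mem_secL]
    intro x
    rw [one_eq, one_pow, mul_one]
    exact (X.O x).one_mem
  have h2 : IsIntegral k ζ := by
    refine isIntegral_of_smul_mem_submodule (N := secL (1 : Cart X) 1)
      ?_ (Module.Finite.iff_fg.1 hfin) ζ ?_
    · intro hbot
      rw [hbot, Submodule.mem_bot] at h1
      exact one_ne_zero h1
    · intro n hn
      rw [mem_secL] at hn ⊢
      intro x
      rw [smul_eq_mul, mul_assoc]
      exact (X.O x).mul_mem (hζ x) (hn x)
  have h3 : (minpoly k ζ).degree = 1 := IsAlgClosed.degree_eq_one_of_irreducible k (minpoly.irreducible h2)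
  exact minpoly.mem_range_of_degree_eq_one k ζ h3

private theorem ord_congr (P Q : PDiv X) (h : P.η = Q.η) (a : K) : P.p.ord a = Q.p.ord a := by
  have hR : P.p.R = Q.p.R := ValuationSubring.ext _ _ (fun x => by rw [← P.mem, ← Q.mem, h])
  have hp : P.p = Q.p := by
    obtain ⟨p, hp⟩ : ∃ p, p = P.p := ⟨_, rfl⟩
    obtain ⟨q, hq⟩ : ∃ q, q = Q.p := ⟨_, rfl⟩
    rw [← hp, ← hq] at hR ⊢
    clear hp hq
    cases p
    cases q
    dsimp only at hR
    subst hR
    rfl
  rw [hp]

/-- all the members of a pencil but one have the same order at a place -/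
private theorem one_exc (p : Place k K) (f g : K) (hf : f ≠ 0) (hg : g ≠ 0)
    (hs : ∀ a : k, f + algebraMap k K a * g ≠ 0) :
    ∃ a₀ : k, ∀ a, a ≠ a₀ → p.ord (f + algebraMap k K a * g) = min (p.ord f) (p.ord g) := by
  have hge : ∀ a : k, min (p.ord f) (p.ord g) ≤ p.ord (f + algebraMap k K a * g) := by
    intro a
    refine Pool.Agent.H39.TU.ord_add_ge p _ _ _ (fun _ => min_le_left _ _) (fun ha => ?_) (hs a)
    have ha0 : a ≠ 0 := by
      rintro rfl
      rw [map_zero, zero_mul] at ha
      exact ha rfl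
    rw [ord_mul p _ _ ((map_ne_zero _).2 ha0) hg, Pool.Agent.H39.TU.ord_base p a ha0, zero_add]
    exact min_le_right _ _
  by_cases hall : ∀ a : k, p.ord (f + algebraMap k K a * g) = min (p.ord f) (p.ord g)
  · exact ⟨0, fun a _ => hall a⟩
  · push Not at hall
    obtain ⟨a₀, ha₀⟩ := hall
    refine ⟨a₀, fun a haa => ?_⟩
    by_contra hne
    have h1 : min (p.ord f) (p.ord g) + 1 ≤ p.ord (f + algebraMap k K a₀ * g) := by
      have := hge a₀
      omega
    have h2 : min (p.ord f) (p.ord g) + 1 ≤ p.ord (f + algebraMap k K a * g) := by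
      have := hge a
      omega
    have hd0 : a - a₀ ≠ 0 := sub_ne_zero.2 haa
    have hd : algebraMap k K (a - a₀) ≠ 0 := (map_ne_zero _).2 hd0
    -- the order of g
    have h3 : min (p.ord f) (p.ord g) + 1 ≤ p.ord g := by
      have e1 : algebraMap k K (a - a₀) * g =
          (f + algebraMap k K a * g) + -(f + algebraMap k K a₀ * g) := by
        rw [map_sub]
        ring
      have e2 := Pool.Agent.H39.TU.ord_add_ge p (f + algebraMap k K a * g) (-(f + algebraMap k K a₀ * g))
        (min (p.ord f) (p.ord g) + 1) (fun _ => h2) (fun _ => by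
          rw [Pool.Agent.H39.TU.ord_neg]
          exact h1) (by
          rw [← e1]
          exact mul_ne_zero hd hg)
      rwa [← e1, ord_mul p _ _ hd hg, Pool.Agent.H39.TU.ord_base p _ hd0, zero_add] at e2
    have h4 : min (p.ord f) (p.ord g) + 1 ≤ p.ord f := by
      have e1 : f = (f + algebraMap k K a * g) + -(algebraMap k K a * g) := by ring
      have e2 := Pool.Agent.H39.TU.ord_add_ge p (f + algebraMap k K a * g) (-(algebraMap k K a * g))
        (min (p.ord f) (p.ord g) + 1) (fun _ => h2) (fun h5 => by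
          rw [Pool.Agent.H39.TU.ord_neg]
          have ha0 : a ≠ 0 := by
            rintro rfl
            rw [map_zero, zero_mul, neg_zero] at h5
            exact h5 rfl
          rw [ord_mul p _ _ ((map_ne_zero _).2 ha0) hg, Pool.Agent.H39.TU.ord_base p a ha0, zero_add]
          exact h3) (by
          rw [← e1]
          exact hf)
      rwa [← e1] at e2
    rcases min_choice (p.ord f) (p.ord g) with h5 | h5
    · rw [h5] at h4
      omega
    · rw [h5] at h3
      omega

theorem mov_zero [IsAlgClosed k] [CharZero k] [T0Space X.P] (h : Hyp X) (D : Cart X) (hD : 2 ≤ h0 D 1) :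
    ¬ StarT D 0 := by
  rintro ⟨T, hT, hS⟩
  have hfr : 1 < Module.finrank k (secL D 1) := hD
  have : Nontrivial (secL D 1) := Module.nontrivial_of_finrank_pos (R := k) (by omega)
  obtain ⟨f, hf0⟩ := exists_ne (0 : secL D 1)
  obtain ⟨g, hfg⟩ := exists_linearIndependent_pair_of_one_lt_finrank hfr hf0
  rw [LinearIndependent.pair_iff] at hfg
  have hrel : ∀ a b : k, algebraMap k K a * (f : K) + algebraMap k K b * (g : K) = 0 → a = 0 ∧ b = 0 := by
    intro a b hab
    refine hfg a b (Subtype.ext ?_)
    rw [← Algebra.smul_def, ← Algebra.smul_def] at hab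
    exact hab
  have hfK : (f : K) ≠ 0 := fun h1 => hf0 (Subtype.ext h1)
  have hgK : (g : K) ≠ 0 := by
    intro h1
    have h2 := hrel 0 1 (by rw [map_zero, map_one, h1, zero_mul, mul_zero, add_zero])
    exact one_ne_zero h2.2
  have hs0 : ∀ a : k, (f : K) + algebraMap k K a * (g : K) ≠ 0 := by
    intro a h1
    have h2 := hrel 1 a (by rw [map_one, one_mul, h1])
    exact one_ne_zero h2.1
  have hsS : ∀ a : k, Sec D 1 ((f : K) + algebraMap k K a * (g : K)) := by
    intro a
    have h1 : ((f + a • g : secL D 1) : K) ∈ secL D 1 := (f + a • g).2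
    have h2 : ((f + a • g : secL D 1) : K) = (f : K) + algebraMap k K a * (g : K) := by
      rw [← Algebra.smul_def]
      rfl
    rw [h2] at h1
    exact h1
  -- the exceptional values
  have hE : ∀ η : X.P, ∃ a₀ : k, ∀ P : PDiv X, P.η = η → ∀ a b : k, a ≠ a₀ → b ≠ a₀ →
      P.p.ord ((f : K) + algebraMap k K a * (g : K)) = P.p.ord ((f : K) + algebraMap k K b * (g : K)) := by
    intro η
    by_cases hη : ∃ Q : PDiv X, Q.η = η
    · obtain ⟨Q, hQ⟩ := hη
      obtain ⟨a₀, ha₀⟩ := one_exc Q.p (f : K) (g : K) hfK hgK hs0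
      refine ⟨a₀, fun P hP a b ha hb => ?_⟩
      rw [ord_congr P Q (hP.trans hQ.symm), ord_congr P Q (hP.trans hQ.symm), ha₀ a ha, ha₀ b hb]
    · exact ⟨0, fun P hP => absurd ⟨P, hP⟩ hη⟩
  choose e he using hE
  have hinf : (e '' T)ᶜ.Infinite := (hT.image e).infinite_compl
  obtain ⟨a, ha⟩ := hinf.nonempty
  obtain ⟨b, hb, hba⟩ := (hinf.sdiff (Set.finite_singleton a)).nonempty
  have hab : b ≠ a := hba
  have hord : ∀ P : PDiv X, P.p.ord ((f : K) + algebraMap k K a * (g : K)) =
      P.p.ord ((f : K) + algebraMap k K b * (g : K)) := by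
    intro P
    by_cases hP : P.η ∈ T
    · refine he P.η P rfl a b ?_ ?_
      · rintro rfl
        exact ha ⟨P.η, hP, rfl⟩
      · rintro rfl
        exact hb ⟨P.η, hP, rfl⟩
    · have key : ∀ c : k, P.p.ord ((f : K) + algebraMap k K c * (g : K)) = - P.p.ord (D.eq P.η) := by
        intro c
        have h1 := hS P hP _ (hs0 c) (hsS c)
        have h2 := hsS c P.η
        rw [pow_one] at h2
        have h3 := (ord_nonneg P.p _ (mul_ne_zero (hs0 c) (D.ne P.η))).2 ((P.mem _).1 h2)
        rw [ord_mul P.p _ _ (hs0 c) (D.ne P.η)] at h1 h3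
        push_cast at h1
        omega
      rw [key a, key b]
  obtain ⟨c, hc⟩ := const_of_reg h (ζ := ((f : K) + algebraMap k K a * (g : K)) /
      ((f : K) + algebraMap k K b * (g : K))) (reg_of_ord h (div_ne_zero (hs0 a) (hs0 b)) (fun P => by
    rw [div_eq_mul_inv, ord_mul P.p _ _ (hs0 a) (inv_ne_zero (hs0 b)), ord_inv, hord P]
    omega))
  rw [eq_div_iff (hs0 b)] at hc
  have h1 := hrel (1 - c) (a - c * b) (by
    rw [map_sub, map_sub, map_one, map_mul]
    linear_combination -hc)
  have h2 : c = 1 := (sub_eq_zero.1 h1.1).symm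
  have h3 := sub_eq_zero.1 h1.2
  rw [h2, one_mul] at h3
  exact hab h3.symm

end Pool.Agent.H89.ZN
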