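import Pool.Agent.H89.ZN.Bxp
import Pool.Agent.H89.ZN.Zer
import Pool.Agent.H36.TZ.Ex
import Pool.Agent.H36.TZ.Cur
import Pool.Agent.H32.TZ.EngA
import Pool.Agent.H83.ZU.Smv

/-!
# [H89 ZN Asm] THEOREM Z (MP_e49dc9_ag): assembly of the numerical half in the case `T(p,p,A) > 0`

`z_pos`: the engine (`H32/TZ/EngA.lean`), (S) implies (b) and (F) implies (c) (`H36/TZ`) give the pencil `Pen T G p` or the curves
`Cur hX hg G p`.
-/

set_option autoImplicit false

namespace Pool.Agent.H89.ZN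

open Pool.Agent.H54.RV Pool.Agent.H83.TU Pool.Agent.H83.TK Pool.Agent.H24.VP Pool.Agent.H39.TQ Pool.Agent.H36.TZ
  Pool.Agent.H36.TQ Pool.Agent.H32.TZ Pool.Agent.H83.ZU Filter Topology

variable {k K : Type} [Field k] [Field K] [Algebra k K] {X : Mod k K} {r : ℕ}
  {T : Cart X → Cart X → Cart X → ℝ} {l : Cart X → ℝ} {c : ℝ} {A : Cart X} {G : Fin r → Cart X} {p : Fin r → ℝ}

theorem z_pos [IsAlgClosed k] [CharZero k] [T0Space X.P] (h : Hyp X) {ρ : ℕ}
    (ν : Cart X →* Multiplicative (Fin ρ → ℤ)) (hν : ∀ D, ν D = 1 → NumZ D) (hp : Pnt T l c A G p)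
    (ha : 0 < pz T G p A) : Pen T G p ∨ Cur h.var h.gen G p := by
  classical
  have hr := hp.hr
  have ht := hr.tri
  have hrn := hp.rn
  have h3 := hp.p3
  have hlp : 0 < ∑ i, p i * l (G i) := hp.lp
  have hlin : ∀ z : Fin r → ℤ, ∑ i, p i * z i = 0 → z = 0 := by
    intro z hz
    refine hp.lin z ?_
    rw [← hz]
    exact Finset.sum_congr rfl fun i _ => mul_comm _ _
  obtain ⟨lp, hlpd⟩ : ∃ lp, lp = ∑ i, p i * l (G i) := ⟨_, rfl⟩
  obtain ⟨δ, hδ, x₀, C₀, hlb⟩ := lb_p h hr hrn h3 ha hlp hlin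
  have hlb' := hlb
  rw [← hlpd] at hlb'
  obtain ⟨x₁, hpos⟩ := lb_pos (lp := lp) (by rw [hlpd]; exact hlp) hlb'
  have hlp0 : 0 < lp := by rw [hlpd]; exact hlp
  -- classes with sections are on the right side
  have hpz_sec : ∀ D : Cart X, 0 < h0 D 1 → 0 ≤ pz T G p D := by
    intro D hD
    obtain ⟨f, hf, hf0⟩ : ∃ f ∈ secL D 1, f ≠ 0 := by
      by_contra hcon
      push Not at hcon
      have h2 : Subsingleton (secL D 1) := ⟨fun a b => Subtype.ext (by rw [hcon _ a.2, hcon _ b.2])⟩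
      unfold h0 at hD
      rw [Module.finrank_zero_of_subsingleton] at hD
      exact lt_irrefl _ hD
    have hE : Effective (prin X f hf0 * D) := fun x => by
      have h1 := hf x
      rw [pow_one] at h1
      rw [mul_eq]
      exact h1
    have h2 := pz_eff h hr hrn hE
    have h4 : pz T G p (prin X f hf0 * D) = pz T G p D := by
      refine pz_congr ht fun B B' => ?_
      rw [ht.add, numz_T h hr (numz_prin f hf0) B B', zero_add]
    rwa [h4] at h2
  -- BOX
  obtain ⟨B, hBd⟩ : ∃ B, B = min (1 / 2) (δ / 2) := ⟨_, rfl⟩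
  have hB0 : 0 < B := by rw [hBd]; exact lt_min (by norm_num) (by linarith)
  have hB1 : B ≤ 1 / 2 := by rw [hBd]; exact min_le_left _ _
  have hB2 : B ≤ δ / 2 := by rw [hBd]; exact min_le_right _ _
  obtain ⟨t₀, ht₀⟩ : ∃ t₀ : ℝ, t₀ = max 1 (max x₁ (8 / lp)) := ⟨_, rfl⟩
  have ht1 : 1 ≤ t₀ := by rw [ht₀]; exact le_max_left _ _
  have htx : x₁ ≤ t₀ := by rw [ht₀]; exact (le_max_left _ _).trans (le_max_right _ _)
  have ht8 : 8 / lp ≤ t₀ := by rw [ht₀]; exact (le_max_right _ _).trans (le_max_right _ _)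
  obtain ⟨C, hbox⟩ := box_p (G := G) (p := p) ht h3 hB0 t₀ (B₀ := δ) (c₀ := lp / 2) (t₁ := max 1 (max x₁ (8 / lp))) hδ
    (by linarith) fun n t ht' hn hz => by
      by_contra hcon
      push Not at hcon
      have g1 : 1 ≤ t := (le_max_left _ _).trans ht'
      have g2 : x₁ ≤ t := (le_max_left _ _).trans ((le_max_right _ _).trans ht')
      have g3 := hpos n t g2 hn (by unfold pw at hcon hz; nlinarith)
      have g4 : 0 < lp * t / 4 := by positivity
      have g5 : (0 : ℝ) < h0 (∏ i, G i ^ n i) 1 := lt_of_lt_of_le g4 g3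
      have g6 := hpz_sec _ (by exact_mod_cast g5)
      unfold pw at hz
      linarith
  -- the sequence
  choose n t hb1 hb2 hb3 hb4 hb5 using fun j : ℕ => hbox (2 ^ j) Nat.one_le_two_pow
  obtain ⟨D, hD⟩ : ∃ D : ℕ → Cart X, D = fun j => ∏ i, G i ^ n j i := ⟨_, rfl⟩
  have hDj : ∀ j, D j = ∏ i, G i ^ n j i := fun j => by rw [hD]
  have hpwD : ∀ j, pw G (n j) = D j := fun j => by rw [hD]; rfl
  have hCpos : 0 < C := by
    have g1 := hb1 0
    have g2 := hb2 0
    simp only [pow_zero, Nat.cast_one, mul_one] at g2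
    linarith
  have hz0 : ∀ j, 0 ≤ pz T G p (D j) := fun j => by
    have := hb4 j
    rwa [hpwD] at this
  have hz1 : ∀ j, (2 : ℝ) ^ j * pz T G p (D j) ≤ C := fun j => by
    have := hb5 j
    rw [hpwD] at this
    push_cast at this
    exact this
  have hb2' : ∀ j, t j ≤ C * 2 ^ j := fun j => by
    have := hb2 j
    push_cast at this
    exact this
  have hnear : ∀ j i, |(n j i : ℝ) - t j * p i| ≤ δ := fun j i => (hb3 j i).trans (by linarith)
  have hsec : ∀ j, lp * t j / 4 ≤ h0 (D j) 1 := fun j => by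
    rw [hDj]
    refine hpos (n j) (t j) (htx.trans (hb1 j)) (hnear j) ?_
    have g1 := hz0 j
    rw [hDj] at g1
    have g2 : 0 ≤ t j * pz T G p (∏ i, G i ^ n j i) := mul_nonneg (by linarith [hb1 j]) g1
    linarith
  have htz : ∀ j, t j * pz T G p (D j) ≤ C ^ 2 := fun j => by
    have g1 : t j * pz T G p (D j) ≤ C * 2 ^ j * pz T G p (D j) := mul_le_mul_of_nonneg_right (hb2' j) (hz0 j)
    have g2 : C * (2 ^ j * pz T G p (D j)) ≤ C * C := mul_le_mul_of_nonneg_left (hz1 j) hCpos.le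
    nlinarith
  -- the case `z = 0`
  by_cases hzero : ∃ j, pz T G p (D j) = 0
  · left
    obtain ⟨j, hj⟩ := hzero
    have g1 : 2 ≤ h0 (D j) 1 := by
      have g2 := hsec j
      have g3 : 8 / lp ≤ t j := ht8.trans (hb1 j)
      rw [div_le_iff₀ hlp0] at g3
      have g4 : (2 : ℝ) ≤ h0 (D j) 1 := by linarith
      exact_mod_cast g4
    have g2 := mov_zero h (D j) g1
    obtain ⟨Cf, hCf, hCf0⟩ := ex_fam h hr ν hν hrn.hA (y := pz T G p) (pz_mul ht) (fun E hE => pz_eff h hr hrn hE)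
      (fun U V hUV => pz_congr ht hUV) |T A A (D j)| fun ε hε => by
        refine ⟨D j, 0, g2, ?_, ?_⟩
        · simp only [Nat.cast_zero, zero_add, mul_one]
          exact le_abs_self _
        · rw [hj]
          simp only [Nat.cast_zero, zero_add, mul_one]
          exact hε.le
    exact ⟨Cf, hCf, hCf0, le_antisymm (hdg_z h hr hrn h3 ha hCf0) (pT_lim ht hrn fun W hW => nn_G h hr hCf hW)⟩
  push Not at hzero
  have hzp : ∀ j, 0 < pz T G p (D j) := fun j => lt_of_le_of_ne (hz0 j) (Ne.symm (hzero j))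
  -- `t j → ∞`
  have htt : Tendsto t atTop atTop := by
    rw [tendsto_atTop]
    intro M
    have hfin := near_fin p B t₀ M
    obtain ⟨ε, hε, hmin⟩ := min_pos (hfin.image fun m : Fin r → ℤ => pz T G p (pw G m))
    obtain ⟨N, hN⟩ := exists_nat_gt (C / ε)
    have hev : ∀ᶠ j : ℕ in atTop, N ≤ j := eventually_ge_atTop N
    filter_upwards [hev] with j hj
    by_contra hcon
    push Not at hcon
    have g1 := hmin _ ⟨n j, ⟨t j, hb1 j, hcon.le, hb3 j⟩, rfl⟩ (by
      have := hzp j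
      rwa [← hpwD] at this)
    simp only at g1
    rw [hpwD] at g1
    have g2 := hz1 j
    have g3 : (2 : ℝ) ^ j * ε ≤ C := (mul_le_mul_of_nonneg_left g1 (by positivity)).trans g2
    rw [div_lt_iff₀ hε] at hN
    have g4 : (N : ℝ) ≤ 2 ^ j := by
      have g5 : (j : ℝ) < 2 ^ j := by exact_mod_cast Nat.lt_two_pow_self
      have g6 : (N : ℝ) ≤ j := by exact_mod_cast hj
      linarith
    have g5 : (N : ℝ) * ε ≤ 2 ^ j * ε := mul_le_mul_of_nonneg_right g4 hε.le
    linarith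
  -- sums
  have hsum : ∀ j, D j * D (j + 1) = ∏ i, G i ^ (n j + n (j + 1)) i := fun j => by
    rw [← hpwD, ← hpwD, ← pw_add]
    rfl
  have hsn : ∀ j i, |(((n j + n (j + 1)) i : ℤ) : ℝ) - (t j + t (j + 1)) * p i| ≤ δ := fun j i => by
    have g1 := (Near.add (hb3 j) (hb3 (j + 1))) i
    exact g1.trans (by linarith)
  have hsn1 : ∀ j i, |(((n j + n (j + 1)) i : ℤ) : ℝ) - (t j + t (j + 1)) * p i| ≤ 1 := fun j i => by
    have g1 := (Near.add (hb3 j) (hb3 (j + 1))) i
    exact g1.trans (by linarith)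
  have hsz : ∀ j, pz T G p (D j * D (j + 1)) = pz T G p (D j) + pz T G p (D (j + 1)) := fun j => pz_mul ht _ _
  have hstz : ∀ j, (t j + t (j + 1)) * pz T G p (D j * D (j + 1)) ≤ 6 * C ^ 2 := fun j => by
    rw [hsz]
    have g1 := hb2' j
    have g2 := hb2' (j + 1)
    have g3 := hz1 j
    have g4 := hz1 (j + 1)
    have g5 := hz0 j
    have g6 := hz0 (j + 1)
    rw [pow_succ] at g2 g4
    obtain ⟨P, hP⟩ : ∃ P : ℝ, P = 2 ^ j := ⟨_, rfl⟩
    rw [← hP] at g1 g2 g3 g4
    have hP0 : 0 < P := by rw [hP]; positivity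
    have g7 : t j + t (j + 1) ≤ 3 * C * P := by linarith
    have g8 : (t j + t (j + 1)) * (pz T G p (D j) + pz T G p (D (j + 1))) ≤
        3 * C * P * (pz T G p (D j) + pz T G p (D (j + 1))) := mul_le_mul_of_nonneg_right g7 (by linarith)
    have g9 : 3 * C * (P * (pz T G p (D j) + pz T G p (D (j + 1)))) ≤ 3 * C * (2 * C) :=
      mul_le_mul_of_nonneg_left (by nlinarith) (by linarith)
    nlinarith
  obtain ⟨th, hth, x₂, hsmv⟩ := smv h hr hrn h3 ha hlp hδ.le hlb (6 * C ^ 2)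
  have hrz : ∀ j, 0 ≤ pz T G p (∏ i, G i ^ (n j + n (j + 1)) i) := fun j => by
    rw [← hsum, hsz]
    exact add_nonneg (hz0 _) (hz0 _)
  have hinf : Tendsto (fun j => h0 (D j) 1) atTop atTop := by
    rw [tendsto_atTop]
    intro M
    filter_upwards [htt.eventually_ge_atTop (4 * M / lp)] with j hj
    have g1 := hsec j
    rw [div_le_iff₀ hlp0] at hj
    have g2 : (M : ℝ) ≤ h0 (D j) 1 := by linarith
    exact_mod_cast g2
  have hsm : ∀ᶠ j in atTop, SmV (1 + th) (D j * D (j + 1)) := by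
    filter_upwards [htt.eventually_ge_atTop x₂] with j hj
    rw [hsum]
    refine hsmv _ (t j + t (j + 1)) ?_ (hsn j) (hrz j) ?_
    · have := hb1 (j + 1)
      linarith
    · rw [← hsum]
      exact hstz j
  -- the engine
  rcases engine_all h D th hth hinf hsm with ⟨u, hu⟩ | ⟨F, hF1, hF2, hF3⟩
  · -- (S)
    left
    obtain ⟨CT, hCT⟩ : ∃ CT : ℝ, CT = |pT T G p A A| + ∑ i, |T (G i) A A| := ⟨_, rfl⟩
    have hCT0 : 0 ≤ CT := by rw [hCT]; positivity
    have hTAA : ∀ (m : Fin r → ℤ) (s : ℝ), 1 ≤ s → (∀ i, |(m i : ℝ) - s * p i| ≤ 1) →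
        T A A (∏ i, G i ^ m i) ≤ CT * s := by
      intro m s hs hm
      have g0 : T A A (∏ i, G i ^ m i) = T (pw G m) A A := by
        rw [ht.s23, ht.s12]
        rfl
      rw [g0, pw_T (p := p) ht m s]
      have g1 := (abs_le.1 (err_le hm fun i => T (G i) A A)).2
      have g2 : s * pT T G p A A ≤ s * |pT T G p A A| := mul_le_mul_of_nonneg_left (le_abs_self _) (by linarith)
      have g3 : ∑ i, |T (G i) A A| ≤ s * ∑ i, |T (G i) A A| := le_mul_of_one_le_left (by positivity) hs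
      rw [hCT]
      linarith
    refine pen_z h hr ν hν hrn h3 ha u (cc := lp / 8) (M := CT) (by positivity) fun ε s₀ hε => ?_
    obtain ⟨s₁, hs₁⟩ : ∃ s₁ : ℝ, s₁ = max s₀ (6 * C ^ 2 / ε) := ⟨_, rfl⟩
    obtain ⟨j, hj1, hj2⟩ := (hu.and_eventually (htt.eventually_ge_atTop s₁)).exists
    have e1 : s₀ ≤ t j := (le_trans (by rw [hs₁]; exact le_max_left _ _) hj2)
    have e2 : 6 * C ^ 2 / ε ≤ t j := (le_trans (by rw [hs₁]; exact le_max_right _ _) hj2)
    have e3 : 1 ≤ t j := ht1.trans (hb1 j)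
    have e5 : x₁ ≤ t j := htx.trans (hb1 j)
    have e4 : 1 ≤ t (j + 1) := ht1.trans (hb1 (j + 1))
    rw [div_le_iff₀ hε] at e2
    rcases hj1 with hj1 | hj1
    · refine ⟨D j, t j, e1, hj1, ?_, ?_, ?_⟩
      · have g1 := hsec j
        have g2 : 0 ≤ lp * t j := by positivity
        linarith
      · rw [hDj]
        exact hTAA _ _ e3 fun i => (hb3 j i).trans (by linarith)
      · have g1 := htz j
        have g2 := hzp j
        have g3 : pz T G p (D j) * 1 ≤ pz T G p (D j) * t j := mul_le_mul_of_nonneg_left e3 g2.le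
        have g4 : 0 ≤ C ^ 2 := sq_nonneg C
        nlinarith
    · refine ⟨D j * D (j + 1), t j + t (j + 1), by linarith, hj1, ?_, ?_, ?_⟩
      · have g1 := hpos (n j + n (j + 1)) (t j + t (j + 1)) (by linarith) (hsn j) (by
          have g2 : 0 ≤ (t j + t (j + 1)) * pz T G p (∏ i, G i ^ (n j + n (j + 1)) i) :=
            mul_nonneg (by linarith) (hrz j)
          linarith)
        rw [← hsum] at g1
        have g2 : 0 ≤ lp * (t j + t (j + 1)) := by positivity
        linarith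
      · rw [hsum]
        exact hTAA _ _ (by linarith) (hsn1 j)
      · have g1 := hstz j
        have g2 : 0 ≤ pz T G p (D j * D (j + 1)) := by
          rw [hsz]
          exact add_nonneg (hz0 _) (hz0 _)
        have g3 : pz T G p (D j * D (j + 1)) * 1 ≤ pz T G p (D j * D (j + 1)) * (t j + t (j + 1)) :=
          mul_le_mul_of_nonneg_left (by linarith) g2
        have g4 : 0 ≤ t (j + 1) * ε := by positivity
        nlinarith
  · -- (F)
    right
    refine cur_of h hr hrn h3 ha hF1 hF2 (B := 1) (C := C ^ 2) zero_le_one fun M => ?_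
    obtain ⟨j, hj⟩ := (hF3 M).exists
    refine ⟨n j, t j, ht1.trans (hb1 j), fun i => (hb3 j i).trans (by linarith), ?_, ?_, fun A' hA' a b h1 h2 => ?_⟩
    · rw [← hDj]
      exact hzp j
    · rw [← hDj]
      exact htz j
    · rw [← hDj]
      exact hj A' hA' a b h1 h2

end Pool.Agent.H89.ZN
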