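import Pool.Agent.H89.ZN.Fin
import Pool.Agent.H89.ZN.Asm
import Pool.Agent.H61.ZP.Main

/-!
# [H89 ZN Thm] THEOREM Z (MP_e49dc9_ag)

`X` a factorial threefold with `RR T l c` (no quadratic term in the Hilbert polynomials), `y` a real nef class in the span of
the divisors `E i`, with `T(y,y,y) = 0` and `l(y) > 0`: there are infinitely many prime divisors `C i` with the same
intersection numbers and `y . y . C i = y . C i . C i = 0`, or a covering family of curves `C` with `y . C = 0`.
-/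

set_option autoImplicit false

namespace Pool.Agent.H89.ZN

open Pool.Agent.H54.RV Pool.Agent.H83.TU Pool.Agent.H83.TK Pool.Agent.H24.VP Pool.Agent.H39.TQ Pool.Agent.H36.TZ

variable {k K : Type} [Field k] [Field K] [Algebra k K] {X : Mod k K}
  {T : Cart X → Cart X → Cart X → ℝ} {l : Cart X → ℝ} {c : ℝ} {m : ℕ} {A : Cart X} {E : Fin m → Cart X} {y : Fin m → ℝ}

/-- **THEOREM Z** -/
theorem theorem_z [IsAlgClosed k] [CharZero k] [T0Space X.P] (h : Hyp X) {ρ : ℕ}
    (ν : Cart X →* Multiplicative (Fin ρ → ℤ)) (hν : ∀ D, ν D = 1 → NumZ D) (hr : RR T l c) (hA : Ample A)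
    (hn : Nfr A E y) (h3 : p3 T E y = 0) (hl : 0 < dl l E y) : Pen T E y ∨ Cur h.var h.gen E y :=
  z_of h hr hA hn h3 hl (fun _ _ _ hP ha => z_pos h ν hν hP ha)
    (fun _ _ _ hP ha => Pool.Agent.H61.ZP.z_zero h ν hν hP ha)

end Pool.Agent.H89.ZN
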