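import Pool.Agent.H89.ZN.Def

/-!
# [H89 ZN Red] THEOREM Z (MP_e49dc9_ag): every real class is a combination with coefficients independent over `ℚ`

`y : Fin m → ℝ`, `E : Fin m → Cart X`.  There are `r`, `p : Fin r → ℝ` linearly independent over `ℚ` and `G : Fin r → Cart X` with `∑ y j δ(E j) = ∑ p i δ(G i)` for all additive functions `δ`.
Moreover `G i = ∏ E j ^ c j i` with integers `c j i` and `y j = ∑ i, c j i * p i`.

PROOF.  Let `V` be the `ℚ`-span of the `y j` in `ℝ`, finite dimensional; `b i` a basis; `y j = ∑ q j i b i`, `q j i ∈ ℚ`; `N ≥ 1` a common denominator, `c j i := N q j i ∈ ℤ`, `p i := b i / N`.  `G i := ∏ j, E j ^ c j i`: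
`∑ i, p i δ(G i) = ∑ i, ∑ j, p i c j i δ(E j) = ∑ j, y j δ(E j)` (`δ(U ^ n) = n δ(U)` for additive `δ`: as `AddMonoidHom`/`map_zpow`).
`nfr_red`: if the weak form of nefness holds for `(E, y)` then it holds for `(G, p)`?  In general the approximating classes are not in the span of the `G i`: here the weak form `Nfr A G p` asks for ample
`∏ G i ^ a i * A ^ m` near `p`.  PROOF.  Let `B = ∏ E j ^ a j * A ^ m`, `|a j / s - y j| ≤ ε`, `m / s ≤ ε` be ample, `K` with `A ^ K * E j ^ (± 1)` ample.  For `u : ℕ` large (`u s ε ≥ 1`) let `n i := ⌊u s p i⌋`; then `∏ G i ^ n i = ∏ E j ^ (∑ i, c j i n i)`, and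
`|∑ i, c j i n i - u s y j| ≤ ∑ |c j i| =: c'`, `|u a j - u s y j| ≤ u s ε`.  So `∏ G i ^ n i * A ^ M = B ^ u * (A ^ (M - u m) * ∏ E j ^ (v j))` with `|v j| ≤ c' + u s ε`, ample if `M - u m > K ∑ |v j|`; this holds for
`M := ⌈u s ε + K m' (c' + u s ε) + 1⌉₊` (`m'` the number of the `E j`); `M / (u s) → const * ε` for `u → ∞`.  Take `ε = 1 / e`, `e → ∞` (diagonal sequence: for every `e : ℕ` choose one `u`).
-/

set_option autoImplicit false

namespace Pool.Agent.H89.ZN

open Pool.Agent.H54.RV Pool.Agent.H83.TU Pool.Agent.H83.TK Pool.Agent.H24.VP Pool.Agent.H39.TQ Pool.Agent.H36.TZ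
  Pool.Agent.H36.TQ Filter Topology

variable {k K : Type} [Field k] [Field K] [Algebra k K] {X : Mod k K} {m : ℕ}

theorem red_lin (y : Fin m → ℝ) : ∃ (r : ℕ) (p : Fin r → ℝ) (c : Fin m → Fin r → ℤ),
    (∀ z : Fin r → ℤ, ∑ i, (z i : ℝ) * p i = 0 → z = 0) ∧ ∀ j, y j = ∑ i, (c j i : ℝ) * p i := by
  classical
  let V : Submodule ℤ ℝ := Submodule.span ℤ (Set.range y)
  haveI : Module.Finite ℤ V := Module.Finite.span_of_finite ℤ (Set.finite_range y)
  haveI : Module.Free ℤ V := inferInstance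
  let b := Module.finBasis ℤ V
  refine ⟨Module.finrank ℤ V, fun i => (b i : ℝ),
    fun j i => b.repr ⟨y j, Submodule.subset_span ⟨j, rfl⟩⟩ i, ?_, ?_⟩
  · intro z hz
    have h1 : ∑ i, z i • b i = 0 := by
      apply Subtype.ext
      rw [Submodule.coe_sum, Submodule.coe_zero, ← hz]
      refine Finset.sum_congr rfl fun i _ => ?_
      rw [Submodule.coe_smul, zsmul_eq_mul]
    have h2 := Fintype.linearIndependent_iff.mp b.linearIndependent z h1
    exact funext h2
  · intro j
    have h1 := b.sum_repr ⟨y j, Submodule.subset_span ⟨j, rfl⟩⟩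
    have h2 := congrArg (fun v : V => (v : ℝ)) h1
    simp only [Submodule.coe_sum, Submodule.coe_smul, zsmul_eq_mul] at h2
    exact h2.symm

private theorem dl_one {δ : Cart X → ℝ} (hδ : ∀ U V, δ (U * V) = δ U + δ V) : δ 1 = 0 := by
  have := hδ 1 1
  rw [mul_one] at this
  linarith

private theorem dl_inv {δ : Cart X → ℝ} (hδ : ∀ U V, δ (U * V) = δ U + δ V) (U : Cart X) :
    δ U⁻¹ = - δ U := by
  have := hδ U U⁻¹
  rw [mul_inv_cancel, dl_one hδ] at this
  linarith

private theorem dl_pow {δ : Cart X → ℝ} (hδ : ∀ U V, δ (U * V) = δ U + δ V) (U : Cart X) (n : ℕ) :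
    δ (U ^ n) = n * δ U := by
  induction n with
  | zero => rw [pow_zero, dl_one hδ]; simp
  | succ n ih => rw [pow_succ, hδ, ih]; push_cast; ring

private theorem dl_zpow {δ : Cart X → ℝ} (hδ : ∀ U V, δ (U * V) = δ U + δ V) (U : Cart X) (n : ℤ) :
    δ (U ^ n) = n * δ U := by
  obtain ⟨a, rfl | rfl⟩ := n.eq_nat_or_neg
  · rw [zpow_natCast, dl_pow hδ]; push_cast; ring
  · rw [zpow_neg, zpow_natCast, dl_inv hδ, dl_pow hδ]; push_cast; ring

private theorem dl_prod {δ : Cart X → ℝ} (hδ : ∀ U V, δ (U * V) = δ U + δ V) {ι : Type}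
    (s : Finset ι) (F : ι → Cart X) : δ (∏ i ∈ s, F i) = ∑ i ∈ s, δ (F i) := by
  classical
  induction s using Finset.induction_on with
  | empty => rw [Finset.prod_empty, Finset.sum_empty, dl_one hδ]
  | insert a s ha ih => rw [Finset.prod_insert ha, Finset.sum_insert ha, hδ, ih]

theorem red_dl {r : ℕ} (E : Fin m → Cart X) (y : Fin m → ℝ) (p : Fin r → ℝ) (c : Fin m → Fin r → ℤ)
    (hy : ∀ j, y j = ∑ i, (c j i : ℝ) * p i) (δ : Cart X → ℝ) (hδ : ∀ U V, δ (U * V) = δ U + δ V) :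
    dl δ (fun i => ∏ j, E j ^ c j i) p = dl δ E y := by
  unfold dl
  simp only [dl_prod hδ, dl_zpow hδ, hy, Finset.mul_sum, Finset.sum_mul]
  rw [Finset.sum_comm]
  exact Finset.sum_congr rfl fun j _ => Finset.sum_congr rfl fun i _ => by ring

/-- multiplication by `U` preserves ampleness -/
private def Qa (U : Cart X) : Prop := ∀ W, Ample W → Ample (W * U)

private theorem qa_one : Qa (X := X) 1 := fun W hW => by rwa [mul_one]

private theorem qa_mul {U V : Cart X} (hU : Qa U) (hV : Qa V) : Qa (U * V) := fun W hW => by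
  rw [← mul_assoc]
  exact hV _ (hU _ hW)

private theorem qa_amp (hX : IsVar X) {U : Cart X} (hU : Ample U) : Qa U := fun W hW =>
  ample_mul hX _ _ hW hU

private theorem qa_pow {U : Cart X} (hU : Qa U) (n : ℕ) : Qa (U ^ n) := by
  induction n with
  | zero => rw [pow_zero]; exact qa_one
  | succ n ih => rw [pow_succ]; exact qa_mul ih hU

private theorem qa_prod {ι : Type} (s : Finset ι) (F : ι → Cart X) (hF : ∀ i ∈ s, Qa (F i)) :
    Qa (∏ i ∈ s, F i) := by
  classical
  induction s using Finset.induction_on with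
  | empty => rw [Finset.prod_empty]; exact qa_one
  | insert a s ha ih =>
    rw [Finset.prod_insert ha]
    exact qa_mul (hF a (Finset.mem_insert_self a s))
      (ih fun i hi => hF i (Finset.mem_insert_of_mem hi))

private theorem qa_zp (hX : IsVar X) {A U : Cart X} {N : ℕ} (h1 : Ample (A ^ N * U))
    (h2 : Ample (A ^ N * U⁻¹)) (v : ℤ) : Qa (A ^ (N * v.natAbs) * U ^ v) := by
  obtain ⟨a, rfl | rfl⟩ := v.eq_nat_or_neg
  · rw [Int.natAbs_natCast, zpow_natCast, pow_mul, ← mul_pow]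
    exact qa_pow (qa_amp hX h1) a
  · rw [Int.natAbs_neg, Int.natAbs_natCast, zpow_neg, zpow_natCast, ← inv_pow, pow_mul, ← mul_pow]
    exact qa_pow (qa_amp hX h2) a

private theorem pw_red {r : ℕ} (E : Fin m → Cart X) (c : Fin m → Fin r → ℤ) (n : Fin r → ℤ) :
    pw (fun i => ∏ j, E j ^ c j i) n = ∏ j, E j ^ (∑ i, c j i * n i) := by
  unfold pw
  have h1 : ∀ i, (∏ j, E j ^ c j i) ^ n i = ∏ j, E j ^ (c j i * n i) := fun i => by
    rw [← Finset.prod_zpow]
    exact Finset.prod_congr rfl fun j _ => (zpow_mul _ _ _).symm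
  simp only [h1]
  rw [Finset.prod_comm]
  refine Finset.prod_congr rfl fun j _ => ?_
  have h2 : ∀ (s : Finset (Fin r)), ∏ i ∈ s, E j ^ (c j i * n i) = E j ^ (∑ i ∈ s, c j i * n i) := by
    intro s
    classical
    induction s using Finset.induction_on with
    | empty => simp
    | insert a s ha ih => rw [Finset.prod_insert ha, Finset.sum_insert ha, zpow_add, ih]
  exact h2 _

private theorem amp_key (hX : IsVar X) {A : Cart X} (hA : Ample A) {r : ℕ} (E : Fin m → Cart X)
    (c : Fin m → Fin r → ℤ) {N : ℕ} (hN : ∀ j, Ample (A ^ N * E j) ∧ Ample (A ^ N * (E j)⁻¹))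
    (a : Fin m → ℤ) (mm : ℕ) (hB : Ample (pw E a * A ^ mm)) (u : ℕ) (n : Fin r → ℤ) :
    Ample (pw (fun i => ∏ j, E j ^ c j i) n *
      A ^ (u * mm + N * ∑ j, (∑ i, c j i * n i - u * a j).natAbs + 1)) := by
  have hq : Qa ((pw E a * A ^ mm) ^ u * ∏ j, (A ^ (N * (∑ i, c j i * n i - u * a j).natAbs) *
      E j ^ (∑ i, c j i * n i - u * a j))) :=
    qa_mul (qa_pow (qa_amp hX hB) u)
      (qa_prod _ _ fun j _ => qa_zp hX (hN j).1 (hN j).2 _)
  have h1 := hq A hA
  have e : pw (fun i => ∏ j, E j ^ c j i) n *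
      A ^ (u * mm + N * ∑ j, (∑ i, c j i * n i - u * a j).natAbs + 1) =
      A * ((pw E a * A ^ mm) ^ u * ∏ j, (A ^ (N * (∑ i, c j i * n i - u * a j).natAbs) *
      E j ^ (∑ i, c j i * n i - u * a j))) := by
    rw [pw_red, Finset.prod_mul_distrib]
    have e1 : ∏ j, A ^ (N * (∑ i, c j i * n i - u * a j).natAbs) =
        A ^ (N * ∑ j, (∑ i, c j i * n i - u * a j).natAbs) := by
      rw [Finset.mul_sum, Finset.prod_pow_eq_pow_sum]
    have e2 : ∏ j, E j ^ (∑ i, c j i * n i) = (pw E a) ^ u * ∏ j, E j ^ (∑ i, c j i * n i - u * a j) := by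
      unfold pw
      rw [← Finset.prod_pow, ← Finset.prod_mul_distrib]
      refine Finset.prod_congr rfl fun j _ => ?_
      rw [← zpow_natCast, ← zpow_mul, ← zpow_add]
      congr 1
      ring
    rw [e1, e2, mul_pow, pow_add, pow_add, pow_one, ← pow_mul, mul_comm mm u]
    simp only [mul_comm, mul_left_comm, mul_assoc]
  rw [e]
  exact h1

theorem nfr_red [CharZero k] [T0Space X.P] (h : Hyp X) {A : Cart X} (hA : Ample A) {r : ℕ} (E : Fin m → Cart X)
    (y : Fin m → ℝ) (p : Fin r → ℝ) (c : Fin m → Fin r → ℤ) (hy : ∀ j, y j = ∑ i, (c j i : ℝ) * p i)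
    (hn : Nfr A E y) : Nfr A (fun i => ∏ j, E j ^ c j i) p := by
  classical
  obtain ⟨a, mm, s, hs, hamp, ha, hm⟩ := hn
  obtain ⟨N, hN⟩ := exists_n h.var hA E
  -- the choice of `n` and `u`
  have key : ∀ e : ℕ, ∃ n u : ℕ, (∀ j, |(a n j : ℝ) / s n - y j| ≤ 1 / ((e : ℝ) + 1)) ∧
      |(mm n : ℝ) / s n| ≤ 1 / ((e : ℝ) + 1) ∧ (e : ℝ) + 1 ≤ u * s n := by
    intro e
    have he : (0 : ℝ) < 1 / ((e : ℝ) + 1) := by positivity
    have h1 : ∀ᶠ n in atTop, ∀ j, |(a n j : ℝ) / s n - y j| ≤ 1 / ((e : ℝ) + 1) := by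
      rw [eventually_all]
      intro j
      have := (Metric.tendsto_nhds.mp (ha j)) _ he
      filter_upwards [this] with n hn
      rw [Real.dist_eq] at hn
      exact hn.le
    have h2 : ∀ᶠ n in atTop, |(mm n : ℝ) / s n| ≤ 1 / ((e : ℝ) + 1) := by
      have := (Metric.tendsto_nhds.mp hm) _ he
      filter_upwards [this] with n hn
      rw [Real.dist_eq, sub_zero] at hn
      exact hn.le
    obtain ⟨n, hn1, hn2⟩ := (h1.and h2).exists
    obtain ⟨u, hu⟩ := exists_nat_ge (((e : ℝ) + 1) / s n)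
    refine ⟨n, u, hn1, hn2, ?_⟩
    rwa [div_le_iff₀ (hs n)] at hu
  choose n u h1 h2 h3 using key
  have hS : ∀ e, 0 < (u e : ℝ) * s (n e) := fun e => lt_of_lt_of_le (by positivity) (h3 e)
  have hinv : ∀ e, 1 / ((u e : ℝ) * s (n e)) ≤ 1 / ((e : ℝ) + 1) := fun e =>
    one_div_le_one_div_of_le (by positivity) (h3 e)
  -- the exponents
  let a' : ℕ → Fin r → ℤ := fun e i => ⌊(u e : ℝ) * s (n e) * p i⌋
  have ha' : ∀ e i, |(a' e i : ℝ) - u e * s (n e) * p i| ≤ 1 := fun e i => by
    rw [abs_le]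
    constructor
    · have := Int.lt_floor_add_one ((u e : ℝ) * s (n e) * p i)
      simp only [a']
      linarith
    · have := Int.floor_le ((u e : ℝ) * s (n e) * p i)
      simp only [a']
      linarith
  let v : ℕ → Fin m → ℤ := fun e j => ∑ i, c j i * a' e i - u e * a (n e) j
  let c' : Fin m → ℝ := fun j => ∑ i, |(c j i : ℝ)|
  have hv : ∀ e j, |(v e j : ℝ)| ≤ c' j + u e * s (n e) * (1 / ((e : ℝ) + 1)) := by
    intro e j
    have e1 : (v e j : ℝ) = ∑ i, (c j i : ℝ) * ((a' e i : ℝ) - u e * s (n e) * p i) -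
        u e * s (n e) * ((a (n e) j : ℝ) / s (n e) - y j) := by
      have hsne := (hs (n e)).ne'
      have e2 : ∑ i, (c j i : ℝ) * ((a' e i : ℝ) - u e * s (n e) * p i) =
          ∑ i, (c j i : ℝ) * (a' e i : ℝ) - u e * s (n e) * y j := by
        rw [hy j, Finset.mul_sum, ← Finset.sum_sub_distrib]
        exact Finset.sum_congr rfl fun i _ => by ring
      have e3 : (u e : ℝ) * s (n e) * ((a (n e) j : ℝ) / s (n e) - y j) =
          u e * a (n e) j - u e * s (n e) * y j := by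
        field_simp
      rw [e2, e3]
      simp only [v]
      push_cast
      ring
    rw [e1]
    refine (abs_sub _ _).trans (add_le_add ?_ ?_)
    · refine (Finset.abs_sum_le_sum_abs _ _).trans (Finset.sum_le_sum fun i _ => ?_)
      rw [abs_mul]
      exact mul_le_of_le_one_right (abs_nonneg _) (ha' e i)
    · rw [abs_mul, abs_of_pos (hS e)]
      exact mul_le_mul_of_nonneg_left (h1 e j) (hS e).le
  refine ⟨a', fun e => u e * mm (n e) + N * ∑ j, (v e j).natAbs + 1, fun e => u e * s (n e), hS,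
    fun e => ?_, fun i => ?_, ?_⟩
  · exact amp_key h.var hA E c hN (a (n e)) (mm (n e)) (hamp (n e)) (u e) (a' e)
  · rw [tendsto_iff_dist_tendsto_zero]
    refine squeeze_zero (fun _ => dist_nonneg) (fun e => ?_) tendsto_one_div_add_atTop_nhds_zero_nat
    rw [Real.dist_eq]
    have gen : ∀ x S q : ℝ, S ≠ 0 → x / S - q = (x - S * q) * (1 / S) := by
      intro x S q hS0
      field_simp
    have e1 : (a' e i : ℝ) / (u e * s (n e)) - p i =
        ((a' e i : ℝ) - u e * s (n e) * p i) * (1 / (u e * s (n e))) :=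
      gen _ _ _ (hS e).ne'
    rw [e1, abs_mul, abs_of_pos (by have := hS e; positivity : (0:ℝ) < 1 / (u e * s (n e)))]
    have := hinv e
    have hh := ha' e i
    have h0 : (0 : ℝ) < 1 / (u e * s (n e)) := by have := hS e; positivity
    nlinarith
  · have hlim : Tendsto (fun e : ℕ => (1 + N * (∑ j, (c' j + 1)) + 1) * (1 / ((e : ℝ) + 1)))
        atTop (𝓝 0) := by
      have := (tendsto_one_div_add_atTop_nhds_zero_nat (𝕜 := ℝ)).const_mul
        (1 + (N : ℝ) * (∑ j, (c' j + 1)) + 1)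
      simpa using this
    refine squeeze_zero (fun e => ?_) (fun e => ?_) hlim
    · have := hS e
      positivity
    · have hS' := hS e
      have hpos : (0 : ℝ) < 1 / (u e * s (n e)) := by positivity
      have e1 : ((u e * mm (n e) + N * ∑ j, (v e j).natAbs + 1 : ℕ) : ℝ) / (u e * s (n e)) =
          (mm (n e) : ℝ) / s (n e) + N * ∑ j, |(v e j : ℝ)| * (1 / (u e * s (n e))) +
            1 / (u e * s (n e)) := by
        have e2 : ((∑ j, (v e j).natAbs : ℕ) : ℝ) = ∑ j, |(v e j : ℝ)| := by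
          push_cast
          refine Finset.sum_congr rfl fun j _ => ?_
          rw [Nat.cast_natAbs, Int.cast_abs]
        rw [← Finset.sum_mul, ← e2]
        have hsne := (hs (n e)).ne'
        have hune : (u e : ℝ) ≠ 0 := by
          intro h0
          rw [h0, zero_mul] at hS'
          exact lt_irrefl _ hS'
        push_cast
        field_simp
      rw [e1]
      have b1 : (mm (n e) : ℝ) / s (n e) ≤ 1 / ((e : ℝ) + 1) := (le_abs_self _).trans (h2 e)
      have gen : ∀ x S q : ℝ, S ≠ 0 → (x + S * q) * (1 / S) = x * (1 / S) + q := by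
        intro x S q hS0
        field_simp
      have b2 : ∑ j, |(v e j : ℝ)| * (1 / (u e * s (n e))) ≤
          (∑ j, (c' j + 1)) * (1 / ((e : ℝ) + 1)) := by
        rw [Finset.sum_mul]
        refine Finset.sum_le_sum fun j _ => ?_
        have hc0 : 0 ≤ c' j := Finset.sum_nonneg fun i _ => abs_nonneg _
        have b3 := mul_le_mul_of_nonneg_right (hv e j) hpos.le
        have b4 : (c' j + u e * s (n e) * (1 / ((e : ℝ) + 1))) * (1 / (u e * s (n e))) =
            c' j * (1 / (u e * s (n e))) + 1 / ((e : ℝ) + 1) := gen _ _ _ hS'.ne'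
        rw [b4] at b3
        have b5 := mul_le_mul_of_nonneg_left (hinv e) hc0
        linarith
      have b6 := hinv e
      have hN0 : (0 : ℝ) ≤ N := Nat.cast_nonneg _
      have b7 := mul_le_mul_of_nonneg_left b2 hN0
      calc (mm (n e) : ℝ) / s (n e) + N * ∑ j, |(v e j : ℝ)| * (1 / (u e * s (n e))) +
            1 / (u e * s (n e)) ≤ 1 / ((e : ℝ) + 1) + N * ((∑ j, (c' j + 1)) * (1 / ((e : ℝ) + 1))) +
            1 / ((e : ℝ) + 1) := add_le_add (add_le_add b1 b7) b6
        _ = (1 + N * (∑ j, (c' j + 1)) + 1) * (1 / ((e : ℝ) + 1)) := by ring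

end Pool.Agent.H89.ZN
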