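import Mathlib

/-!
# [H89 ZN Box] THEOREM Z (MP_e49dc9_ag), BOX: simultaneous approximation with one sharp linear form (Mathlib only)

`x`, `z` real vectors with `∑ z i * x i = 0`.  For every `B > 0` and `M` there is `C` such that for every `N ≥ 1` there are `M ≤ t ≤ C N` and
integers `n i` with `|n i - t x i| ≤ B` and `N |∑ n i * z i| ≤ 1`.

PROOF (pigeonhole).  For `j = 0, .., J` let `a j i := ⌊j M x i⌋`, `f j i := j M x i - a j i ∈ [0,1)` and `s j := ∑ i, a j i * z i = - ∑ i, f j i * z i` (because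
`∑ z i * x i = 0`), so `|s j| ≤ Z := ∑ |z i|`.  Choose `q : ℕ`, `q ≥ 1`, `1 / q ≤ B`.  Cells: `j ↦ (fun i => ⌊q * f j i⌋, ⌊N * s j⌋)`, with values in the finite set
`(Fin r → {0, .., q-1}) × {- N Z - 1, .., N Z}` of at most `q ^ r * (2 N Z + 2) ≤ q ^ r (2 Z + 2) N` elements (take `Z' := ⌈Z⌉₊`).  With `J := q ^ r * (2 Z' + 3) * N`
two indices `i < j` fall in the same cell (`Finset.exists_ne_map_eq_of_card_lt_of_maps_to`): `t := (j - i) M` satisfies `M ≤ t ≤ J M`, `n := a j - a i`: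
`n i - t x i = f i - f j` (same cell: `|q f i - q f j| < 1`, so `< 1 / q ≤ B`) and `|N (s j - s i)| < 1`.
-/

set_option autoImplicit false

namespace Pool.Agent.H89.ZN

private theorem key {r : ℕ} (x z : Fin r → ℝ) (hz : ∑ i, z i * x i = 0) (q Z N M : ℕ) (hq : 1 ≤ q)
    (hZ : ∑ i, |z i| ≤ Z) (hM : 1 ≤ M) (hN : 1 ≤ N) :
    ∃ (t : ℕ) (n : Fin r → ℤ), M ≤ t ∧ t ≤ (q ^ r * (2 * Z + 3) * M) * N ∧
      (∀ i, |(n i : ℝ) - t * x i| ≤ 1 / q) ∧ N * |∑ i, (n i : ℝ) * z i| ≤ 1 := by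
  classical
  have hq0 : (0 : ℝ) < q := by exact_mod_cast hq
  have hN0 : (0 : ℝ) < N := by exact_mod_cast hN
  set J : ℕ := q ^ r * (2 * Z + 3) * N with hJ
  let a : ℕ → Fin r → ℤ := fun j i => ⌊((j * M : ℕ) : ℝ) * x i⌋
  let f : ℕ → Fin r → ℝ := fun j i => Int.fract (((j * M : ℕ) : ℝ) * x i)
  let s : ℕ → ℝ := fun j => ∑ i, (a j i : ℝ) * z i
  have ha : ∀ j i, (a j i : ℝ) = ((j * M : ℕ) : ℝ) * x i - f j i := by
    intro j i
    have h := Int.floor_add_fract (((j * M : ℕ) : ℝ) * x i)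
    show ((⌊((j * M : ℕ) : ℝ) * x i⌋ : ℤ) : ℝ) = ((j * M : ℕ) : ℝ) * x i - Int.fract (((j * M : ℕ) : ℝ) * x i)
    linarith
  have hf0 : ∀ j i, 0 ≤ f j i := fun j i => Int.fract_nonneg _
  have hf1 : ∀ j i, f j i < 1 := fun j i => Int.fract_lt_one _
  have hs : ∀ j, s j = -∑ i, f j i * z i := by
    intro j
    show ∑ i, (a j i : ℝ) * z i = -∑ i, f j i * z i
    have h1 : ∀ i, (a j i : ℝ) * z i = ((j * M : ℕ) : ℝ) * (z i * x i) - f j i * z i := by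
      intro i
      rw [ha]
      ring
    rw [Finset.sum_congr rfl fun i _ => h1 i, Finset.sum_sub_distrib, ← Finset.mul_sum, hz, mul_zero,
      zero_sub]
  have hsZ : ∀ j, |s j| ≤ Z := by
    intro j
    rw [hs, abs_neg]
    refine (Finset.abs_sum_le_sum_abs _ _).trans (le_trans (Finset.sum_le_sum fun i _ => ?_) hZ)
    rw [abs_mul, abs_of_nonneg (hf0 j i)]
    exact mul_le_of_le_one_left (abs_nonneg _) (hf1 j i).le
  let cells : Finset ((Fin r → ℤ) × ℤ) :=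
    (Fintype.piFinset fun _ => Finset.Ico (0 : ℤ) q) ×ˢ Finset.Icc (-(N * Z : ℤ)) (N * Z)
  let g : ℕ → (Fin r → ℤ) × ℤ := fun j => (fun i => ⌊(q : ℝ) * f j i⌋, ⌊(N : ℝ) * s j⌋)
  have hcard : cells.card < (Finset.range (J + 1)).card := by
    have h1 : cells.card = q ^ r * (N * Z + 1 + N * Z) := by
      show ((Fintype.piFinset fun _ : Fin r => Finset.Ico (0 : ℤ) q) ×ˢ
        Finset.Icc (-(N * Z : ℤ)) (N * Z)).card = _
      rw [Finset.card_product, Fintype.card_piFinset_const, Int.card_Ico, Int.card_Icc]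
      have h2 : (N * Z : ℤ) + 1 - -(N * Z : ℤ) = ((N * Z + 1 + N * Z : ℕ) : ℤ) := by
        push_cast
        ring
      rw [h2, Int.toNat_natCast, sub_zero, Int.toNat_natCast]
    rw [h1, Finset.card_range, hJ, mul_assoc]
    refine Nat.lt_succ_of_le (Nat.mul_le_mul_left _ ?_)
    nlinarith
  have hmaps : ∀ j ∈ Finset.range (J + 1), g j ∈ cells := by
    intro j _
    refine Finset.mem_product.2 ⟨Fintype.mem_piFinset.2 fun i => ?_, ?_⟩
    · rw [Finset.mem_Ico]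
      refine ⟨Int.floor_nonneg.2 (mul_nonneg hq0.le (hf0 j i)), ?_⟩
      rw [Int.floor_lt, Int.cast_natCast]
      exact mul_lt_of_lt_one_right hq0 (hf1 j i)
    · rw [Finset.mem_Icc]
      have h1 := abs_le.1 (hsZ j)
      constructor
      · rw [Int.le_floor]
        push_cast
        nlinarith [h1.1]
      · have h2 : ((⌊(N : ℝ) * s j⌋ : ℤ) : ℝ) ≤ N * Z :=
          (Int.floor_le _).trans (mul_le_mul_of_nonneg_left h1.2 hN0.le)
        exact_mod_cast h2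
  obtain ⟨j₁, hj₁, j₂, hj₂, hne, heq⟩ := Finset.exists_ne_map_eq_of_card_lt_of_maps_to hcard hmaps
  obtain ⟨i, j, hij, hjJ, hg⟩ : ∃ i j : ℕ, i < j ∧ j ≤ J ∧ g i = g j := by
    rcases lt_or_gt_of_ne hne with h | h
    · exact ⟨j₁, j₂, h, Nat.lt_succ_iff.1 (Finset.mem_range.1 hj₂), heq⟩
    · exact ⟨j₂, j₁, h, Nat.lt_succ_iff.1 (Finset.mem_range.1 hj₁), heq.symm⟩
  have hg1 : ∀ k, ⌊(q : ℝ) * f i k⌋ = ⌊(q : ℝ) * f j k⌋ := fun k => congrFun (congrArg Prod.fst hg) k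
  have hg2 : ⌊(N : ℝ) * s i⌋ = ⌊(N : ℝ) * s j⌋ := congrArg Prod.snd hg
  obtain ⟨d, rfl⟩ : ∃ d, j = i + d := ⟨j - i, by omega⟩
  refine ⟨d * M, fun k => a (i + d) k - a i k, ?_, ?_, ?_, ?_⟩
  · have hd : 1 ≤ d := by omega
    exact Nat.le_mul_of_pos_left _ hd
  · have hd : d ≤ J := by omega
    calc d * M ≤ J * M := Nat.mul_le_mul_right _ hd
      _ = (q ^ r * (2 * Z + 3) * M) * N := by
        rw [hJ]
        ring
  · intro k
    have h1 : ((a (i + d) k - a i k : ℤ) : ℝ) - ((d * M : ℕ) : ℝ) * x k = f i k - f (i + d) k := by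
      push_cast
      rw [ha, ha]
      push_cast
      ring
    rw [h1]
    have h2 := Int.abs_sub_lt_one_of_floor_eq_floor (hg1 k)
    rw [← mul_sub, abs_mul, abs_of_pos hq0] at h2
    rw [le_div_iff₀ hq0, mul_comm]
    exact h2.le
  · have h1 : ∑ k, ((a (i + d) k - a i k : ℤ) : ℝ) * z k = s (i + d) - s i := by
      show _ = ∑ k, (a (i + d) k : ℝ) * z k - ∑ k, (a i k : ℝ) * z k
      rw [← Finset.sum_sub_distrib]
      refine Finset.sum_congr rfl fun k _ => ?_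
      push_cast
      ring
    rw [h1]
    have h2 := Int.abs_sub_lt_one_of_floor_eq_floor hg2.symm
    rw [← mul_sub, abs_mul, abs_of_pos hN0] at h2
    exact h2.le

theorem box_dio {r : ℕ} (x z : Fin r → ℝ) (hz : ∑ i, z i * x i = 0) {B : ℝ} (hB : 0 < B) (M : ℕ) (hM : 1 ≤ M) :
    ∃ C : ℕ, ∀ N : ℕ, 1 ≤ N → ∃ (t : ℕ) (n : Fin r → ℤ), M ≤ t ∧ t ≤ C * N ∧ (∀ i, |(n i : ℝ) - t * x i| ≤ B) ∧
      N * |∑ i, (n i : ℝ) * z i| ≤ 1 := by
  obtain ⟨q, hq⟩ := exists_nat_one_div_lt hB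
  obtain ⟨Z, hZ⟩ := exists_nat_ge (∑ i, |z i|)
  refine ⟨(q + 1) ^ r * (2 * Z + 3) * M, fun N hN => ?_⟩
  obtain ⟨t, n, h1, h2, h3, h4⟩ := key x z hz (q + 1) Z N M (by omega) hZ hM hN
  refine ⟨t, n, h1, h2, fun i => (h3 i).trans ?_, h4⟩
  push_cast
  exact hq.le

end Pool.Agent.H89.ZN
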