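import Pool.Agent.H89.ZN.Exp
import Pool.Agent.H89.ZN.Box

/-!
# [H89 ZN Bxp] THEOREM Z (MP_e49dc9_ag), BOX: classes near `t p` on the right side, at every scale

Hypothesis `hlb` (from `lb_p` of `H83/ZU`): `Near p B₀ t n`, `t ≥ t₁`, `pz (pw G n) < 0` imply `c₀ ≤ t |pz|` (the class has no sections).
PROOF.  `box_dio` with `x = p`, `z i = pz (G i)` (`∑ z i * p i = p3 = 0`), `min B B₀ / 2` and `M ≥ max t₀ t₁`, `M ≥ 1`: a constant `C₁`.  Let `κ : ℕ` be large: `c₀ κ ≥ C₁ + t₀`,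
`C := C₁ κ + 1`.  For `N` let `(t, n)` be the vector at `N`; `|pz| = |∑ n i z i| ≤ 1 / N`.  If `0 ≤ pz`: done.  Otherwise `t ≥ c₀ N`, `|pz| ≥ c₀ / (C₁ N)`.  Let `(t', n')` be the vector
at `κ N`.  If `0 ≤ pz'`: done (`t' ≤ C₁ κ N`).  Otherwise `t' ≥ c₀ κ N`, `|pz'| ≤ 1 / (κ N)`; take `n' - n`, `t' - t ≥ c₀ κ N - C₁ N ≥ t₀`, `t' - t ≤ C₁ κ N`,
`pz (pw G (n' - n)) = |pz| - |pz'| ≥ c₀ / (C₁ N) - 1 / (κ N) ≥ 0` and `≤ |pz| ≤ 1 / N`.
-/

set_option autoImplicit false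

namespace Pool.Agent.H89.ZN

open Pool.Agent.H54.RV Pool.Agent.H83.TU Pool.Agent.H83.TK Pool.Agent.H24.VP Pool.Agent.H39.TQ Pool.Agent.H36.TZ

variable {k K : Type} [Field k] [Field K] [Algebra k K] {X : Mod k K} {r : ℕ}
  {T : Cart X → Cart X → Cart X → ℝ} {l : Cart X → ℝ} {c : ℝ} {A : Cart X} {G : Fin r → Cart X} {p : Fin r → ℝ}

private theorem pz_pw (ht : Tri T) (n : Fin r → ℤ) : pz T G p (pw G n) = ∑ i, (n i : ℝ) * pz T G p (G i) := by
  unfold pw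
  rw [pz_prod ht]
  exact Finset.sum_congr rfl fun i _ => pz_zpow ht _ _

theorem box_p (ht : Tri T) (h3 : p3 T G p = 0) {B : ℝ} (hB : 0 < B) (t₀ : ℝ) {B₀ c₀ t₁ : ℝ} (hB₀ : 0 < B₀)
    (hc₀ : 0 < c₀) (hlb : ∀ (n : Fin r → ℤ) (t : ℝ), t₁ ≤ t → Near p B₀ t n → pz T G p (pw G n) < 0 →
      c₀ ≤ t * (-pz T G p (pw G n))) : ∃ C : ℝ, Bxo T G p B C t₀ := by
  obtain ⟨M, hM⟩ := exists_nat_ge (max 1 (max t₀ t₁))
  have hM1 : (1 : ℝ) ≤ M := (le_max_left _ _).trans hM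
  have hM0 : t₀ ≤ M := ((le_max_left _ _).trans (le_max_right _ _)).trans hM
  have hMt : t₁ ≤ M := ((le_max_right _ _).trans (le_max_right _ _)).trans hM
  have hz : ∑ i, pz T G p (G i) * p i = 0 := by
    rw [← h3]
    unfold p3
    exact Finset.sum_congr rfl fun i _ => mul_comm _ _
  have hb0 : 0 < min B B₀ / 2 := by
    have := lt_min hB hB₀
    linarith
  have hbB : min B B₀ / 2 ≤ B := by
    have h1 := min_le_left B B₀
    linarith
  have hbB₀ : min B B₀ / 2 ≤ B₀ := by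
    have h1 := min_le_right B B₀
    linarith
  have hbb : min B B₀ / 2 + min B B₀ / 2 ≤ B := by
    have h1 := min_le_left B B₀
    linarith
  obtain ⟨C₁, hC₁⟩ := box_dio p (fun i => pz T G p (G i)) hz hb0 M (by exact_mod_cast hM1)
  obtain ⟨κ, hκ⟩ := exists_nat_ge (max 1 (max ((C₁ + |t₀|) / c₀) (C₁ / c₀)))
  have hκ1 : (1 : ℝ) ≤ κ := (le_max_left _ _).trans hκ
  have hκ2 : C₁ + |t₀| ≤ c₀ * κ := by
    have h1 := ((le_max_left _ _).trans (le_max_right _ _)).trans hκ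
    rw [div_le_iff₀ hc₀] at h1
    linarith
  have hκ3 : (C₁ : ℝ) ≤ c₀ * κ := by
    have h1 := ((le_max_right _ _).trans (le_max_right _ _)).trans hκ
    rw [div_le_iff₀ hc₀] at h1
    linarith
  have hC0 : (0 : ℝ) ≤ C₁ := Nat.cast_nonneg _
  refine ⟨C₁ * κ + 1, fun N hN => ?_⟩
  have hN1 : (1 : ℝ) ≤ N := by exact_mod_cast hN
  have hN0 : (0 : ℝ) < N := by linarith
  obtain ⟨t, n, a1, a2, a3, a4⟩ := hC₁ N hN
  rw [← pz_pw ht] at a4
  have a1' : (M : ℝ) ≤ t := by exact_mod_cast a1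
  have a2' : (t : ℝ) ≤ C₁ * N := by exact_mod_cast a2
  have b1 : (C₁ : ℝ) * N ≤ (C₁ * κ + 1) * N := by
    refine mul_le_mul_of_nonneg_right ?_ hN0.le
    have : (C₁ : ℝ) * 1 ≤ C₁ * κ := mul_le_mul_of_nonneg_left hκ1 hC0
    linarith
  have b2 : (1 : ℝ) ≤ C₁ * κ + 1 := by
    have : (0 : ℝ) ≤ C₁ * κ := by positivity
    linarith
  by_cases hpos : 0 ≤ pz T G p (pw G n)
  · rw [abs_of_nonneg hpos] at a4
    exact ⟨n, t, hM0.trans a1', a2'.trans b1, fun i => (a3 i).trans hbB, hpos, a4.trans b2⟩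
  push Not at hpos
  obtain ⟨z, hz1⟩ : ∃ z, z = -pz T G p (pw G n) := ⟨_, rfl⟩
  have hlb1 := hlb n t (hMt.trans a1') (fun i => (a3 i).trans hbB₀) hpos
  rw [abs_of_neg hpos] at a4
  rw [← hz1] at hlb1 a4
  have hzpos : 0 < z := by rw [hz1]; linarith
  obtain ⟨t', n', a5, a6, a7, a8⟩ := hC₁ (κ * N) (by
    have : 1 ≤ κ := by exact_mod_cast hκ1
    calc 1 = 1 * 1 := rfl
      _ ≤ κ * N := Nat.mul_le_mul this hN)
  rw [← pz_pw ht] at a8
  have a5' : (M : ℝ) ≤ t' := by exact_mod_cast a5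
  have a6' : (t' : ℝ) ≤ C₁ * (κ * N) := by exact_mod_cast a6
  push_cast at a8
  have b3 : (C₁ : ℝ) * (κ * N) ≤ (C₁ * κ + 1) * N := by nlinarith
  by_cases hpos' : 0 ≤ pz T G p (pw G n')
  · rw [abs_of_nonneg hpos'] at a8
    refine ⟨n', t', hM0.trans a5', a6'.trans b3, fun i => (a7 i).trans hbB, hpos', ?_⟩
    have h1 : (N : ℝ) * pz T G p (pw G n') ≤ κ * N * pz T G p (pw G n') := by
      refine mul_le_mul_of_nonneg_right ?_ hpos'
      have := mul_le_mul_of_nonneg_right hκ1 hN0.le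
      linarith
    linarith
  push Not at hpos'
  obtain ⟨z', hz2⟩ : ∃ z', z' = -pz T G p (pw G n') := ⟨_, rfl⟩
  have hlb2 := hlb n' t' (hMt.trans a5') (fun i => (a7 i).trans hbB₀) hpos'
  rw [abs_of_neg hpos'] at a8
  rw [← hz2] at hlb2 a8
  have hzpos' : 0 < z' := by rw [hz2]; linarith
  -- `t' ≥ c₀ κ N`
  have hκN : (0 : ℝ) < κ * N := by positivity
  have ht0 : (0 : ℝ) ≤ t := Nat.cast_nonneg _
  have ht0' : (0 : ℝ) ≤ t' := Nat.cast_nonneg _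
  have d1 : c₀ * (κ * N) ≤ t' := by
    calc c₀ * (κ * N) ≤ t' * z' * (κ * N) := mul_le_mul_of_nonneg_right hlb2 hκN.le
      _ = t' * (κ * N * z') := by ring
      _ ≤ t' * 1 := mul_le_mul_of_nonneg_left a8 ht0'
      _ = t' := mul_one _
  have d2 : t₀ ≤ (t' : ℝ) - t := by
    have h1 := le_abs_self t₀
    have h2 : (C₁ + |t₀|) * N ≤ c₀ * κ * N := mul_le_mul_of_nonneg_right hκ2 hN0.le
    have h3 : |t₀| * 1 ≤ |t₀| * N := mul_le_mul_of_nonneg_left hN1 (abs_nonneg _)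
    nlinarith
  have d3 : z' ≤ z := by
    have h1 : c₀ ≤ C₁ * N * z := hlb1.trans (mul_le_mul_of_nonneg_right a2' hzpos.le)
    have h2 : (κ * N) * z' ≤ 1 := a8
    have h3 : c₀ * κ * z' ≤ c₀ * κ * z := by
      have h4 : (C₁ : ℝ) * N * z ≤ c₀ * κ * (N * z) := by
        rw [mul_assoc]
        exact mul_le_mul_of_nonneg_right hκ3 (by positivity)
      have h5 : c₀ * ((κ * N) * z') ≤ c₀ * 1 := mul_le_mul_of_nonneg_left h2 hc₀.le
      have h6 : c₀ * κ * z' * N ≤ c₀ * κ * z * N := by nlinarith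
      exact le_of_mul_le_mul_right h6 hN0
    exact le_of_mul_le_mul_left h3 (by positivity)
  have e1 : pz T G p (pw G (n' - n)) = z - z' := by
    rw [pz_pw ht, hz1, hz2, pz_pw ht, pz_pw ht]
    simp only [Pi.sub_apply, Int.cast_sub, sub_mul]
    rw [Finset.sum_sub_distrib]
    ring
  refine ⟨n' - n, t' - t, d2, by linarith, fun i => ?_, by rw [e1]; linarith, ?_⟩
  · have h1 := a3 i
    have h2 := a7 i
    have h3 : ((n' - n) i : ℝ) - (t' - t) * p i = ((n' i : ℝ) - t' * p i) - ((n i : ℝ) - t * p i) := by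
      simp only [Pi.sub_apply, Int.cast_sub]
      ring
    rw [h3]
    refine (abs_sub _ _).trans ?_
    linarith
  · rw [e1]
    have h1 : (N : ℝ) * (z - z') ≤ N * z := by
      refine mul_le_mul_of_nonneg_left ?_ hN0.le
      linarith
    linarith

end Pool.Agent.H89.ZN
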