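import Pool.Agent.H89.ZN.Def
import Pool.Agent.H20.TD.Am

/-!
# [H89 ZN Cls] THEOREM Z (MP_e49dc9_ag): the points of the closed ample cone are nef

`nfr_clo`: if `E i` has the class `e_i` then the points `p` of the closure of the ample cone `AmpR ν` satisfy `Nfr A E p`.
-/

set_option autoImplicit false

namespace Pool.Agent.H89.ZN

open Pool.Agent.H54.RV Pool.Agent.H83.TU Pool.Agent.H83.TK Pool.Agent.H24.VP Pool.Agent.H20.TD Filter Topology

variable {k K : Type} [Field k] [Field K] [Algebra k K] {X : Mod k K} {r : ℕ}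
  {ν : Cart X →* Multiplicative (Fin r → ℤ)}

private theorem ample_prod' (hX : IsVar X) {m : ℕ} (F : Fin (m + 1) → Cart X) (hF : ∀ i, Ample (F i)) :
    Ample (∏ i, F i) := by
  induction m with
  | zero => rw [Fin.prod_univ_succ, Fin.prod_univ_zero, mul_one]; exact hF 0
  | succ m ih =>
    rw [Fin.prod_univ_succ]
    exact ample_mul hX _ _ (hF 0) (ih (fun i => F i.succ) fun i => hF i.succ)

private theorem ci_prod' {ι : Type} (s : Finset ι) (F : ι → Cart X) :
    ci ν (∏ i ∈ s, F i) = ∑ i ∈ s, ci ν (F i) := by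
  unfold ci
  rw [map_prod, toAdd_prod]

private theorem ci_pw {E : Fin r → Cart X} (hE : ∀ i, ci ν (E i) = Pi.single i 1) (a : Fin r → ℤ) :
    ci ν (pw E a) = a := by
  unfold pw
  rw [ci_prod']
  funext j
  simp only [ci_zpow, hE, Finset.sum_apply, Pi.smul_apply, Pi.single_apply, smul_eq_mul]
  simp

/-- the points of the closed ample cone are nef -/
theorem nfr_clo (hX : IsVar X) (hν : NumR ν) (A : Cart X) {E : Fin r → Cart X}
    (hE : ∀ i, ci ν (E i) = Pi.single i 1) {p : Fin r → ℝ} (hp : p ∈ closure (AmpR ν)) : Nfr A E p := by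
  obtain ⟨v, hv, hlim⟩ := mem_closure_iff_seq_limit.1 hp
  have key : ∀ n : ℕ, ∃ (a : Fin r → ℤ) (s : ℝ), 0 < s ∧ Ample (pw E a) ∧
      ∀ i, |(a i : ℝ) / s - v n i| ≤ 1 / (n + 1 : ℝ) := by
    intro n
    obtain ⟨m, c, D, hc, hD, hvn⟩ := hv n
    obtain ⟨S, hS⟩ : ∃ S : ℝ, S = ∑ i, ∑ j, |(ci ν (D j) i : ℝ)| := ⟨_, rfl⟩
    have hS0 : 0 ≤ S := by
      rw [hS]
      exact Finset.sum_nonneg fun i _ => Finset.sum_nonneg fun j _ => abs_nonneg _
    obtain ⟨N, hN⟩ := exists_nat_gt ((n + 1 : ℝ) * S)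
    have hn1 : (0 : ℝ) < n + 1 := by positivity
    have hN0 : (0 : ℝ) < N := lt_of_le_of_lt (by positivity) hN
    have hq : ∀ j, 0 < ⌈c j * N⌉₊ := fun j => Nat.ceil_pos.2 (mul_pos (hc j) hN0)
    refine ⟨∑ j, (⌈c j * N⌉₊ : ℤ) • ci ν (D j), N, hN0, ?_, fun i => ?_⟩
    · have h1 : Ample (∏ j, D j ^ ⌈c j * N⌉₊) :=
        ample_prod' hX _ fun j => ample_pow _ _ (hq j) (hD j)
      refine amp_congr hν ?_ h1
      rw [ci_pw hE, ci_prod']
      exact Finset.sum_congr rfl fun j _ => by rw [ci_pow]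
    · have h2 : v n i = ∑ j, c j * (ci ν (D j) i : ℝ) := by
        rw [hvn]
        simp [rv, Finset.sum_apply]
      have h3 : (((∑ j, (⌈c j * N⌉₊ : ℤ) • ci ν (D j)) i : ℤ) : ℝ)
          = ∑ j, (⌈c j * N⌉₊ : ℝ) * (ci ν (D j) i : ℝ) := by
        simp [Finset.sum_apply]
      rw [h3, h2, Finset.sum_div, ← Finset.sum_sub_distrib]
      refine (Finset.abs_sum_le_sum_abs _ _).trans ?_
      have h4 : ∀ j ∈ Finset.univ, |(⌈c j * N⌉₊ : ℝ) * (ci ν (D j) i : ℝ) / N - c j * (ci ν (D j) i : ℝ)|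
          ≤ |(ci ν (D j) i : ℝ)| / N := by
        intro j _
        have h5 : (⌈c j * N⌉₊ : ℝ) * (ci ν (D j) i : ℝ) / N - c j * (ci ν (D j) i : ℝ)
            = ((⌈c j * N⌉₊ : ℝ) - c j * N) * (ci ν (D j) i : ℝ) / N := by
          field_simp
        rw [h5, abs_div, abs_mul, abs_of_pos hN0]
        refine div_le_div_of_nonneg_right ?_ hN0.le
        have h6 : |(⌈c j * N⌉₊ : ℝ) - c j * N| ≤ 1 := by
          rw [abs_of_nonneg (sub_nonneg.2 (Nat.le_ceil _))]
          have := Nat.ceil_lt_add_one (mul_pos (hc j) hN0).le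
          linarith
        calc |(⌈c j * N⌉₊ : ℝ) - c j * N| * |(ci ν (D j) i : ℝ)| ≤ 1 * |(ci ν (D j) i : ℝ)| :=
              mul_le_mul_of_nonneg_right h6 (abs_nonneg _)
          _ = _ := one_mul _
      refine (Finset.sum_le_sum h4).trans ?_
      rw [← Finset.sum_div]
      have h7 : ∑ j, |(ci ν (D j) i : ℝ)| ≤ S := by
        rw [hS]
        exact Finset.single_le_sum (f := fun i => ∑ j, |(ci ν (D j) i : ℝ)|)
          (fun i _ => Finset.sum_nonneg fun j _ => abs_nonneg _) (Finset.mem_univ i)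
      rw [div_le_div_iff₀ hN0 hn1]
      nlinarith
  choose a s hs ha hb using key
  refine ⟨a, fun _ => 0, s, hs, fun n => ?_, fun i => ?_, ?_⟩
  · rw [pow_zero, mul_one]
    exact ha n
  · have h1 : Tendsto (fun n => v n i) atTop (𝓝 (p i)) := (tendsto_pi_nhds.1 hlim) i
    have h2 : Tendsto (fun n => (a n i : ℝ) / s n - v n i) atTop (𝓝 0) :=
      squeeze_zero_norm (fun n => hb n i) tendsto_one_div_add_atTop_nhds_zero_nat
    have h3 := h2.add h1
    rw [zero_add] at h3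
    exact h3.congr fun n => by ring
  · simp

end Pool.Agent.H89.ZN
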