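import Pool.Agent.H89.ZN.Def

/-!
# [H89 ZN Exp] THEOREM Z (MP_e49dc9_ag): expansions near `t p`

`D = pw G n = t p + w`, `w i = n i - t p i`.  From `W_T`, `W_pT`, `W_pz` of `H36/TZ/Def.lean` (with `C = 0`: write `pw G n = A ^ 0 * ∏ ..`):
`pz D = ∑ w i pz (G i)` (`p3 = 0`), `T(D,D,D) = 3 t² pz D + 3 t Q + R` with `Q = ∑∑ w i w j pT (G i) (G j)`, `R = ∑∑∑ w i w j w m T(G i,G j,G m)`.
PROOF of the last: `T D D D = t pT D D + ∑ w i T (G i) D D`, `pT D D = t pz D + ∑ w i pT (G i) D`, `pT (G i) D = pT D (G i) = t pz (G i) + ∑ w j pT (G j) (G i)`,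
`T (G i) D D = T D (G i) D = t pT (G i) D + ∑ w j T (G j) (G i) D`, `T (G j) (G i) D = T D (G j) (G i) = t pT (G j) (G i) + ∑ w m T (G m) (G j) (G i)`.
-/

set_option autoImplicit false

namespace Pool.Agent.H89.ZN

open Pool.Agent.H54.RV Pool.Agent.H83.TU Pool.Agent.H83.TK Pool.Agent.H24.VP Pool.Agent.H39.TQ Pool.Agent.H36.TZ

variable {k K : Type} [Field k] [Field K] [Algebra k K] {X : Mod k K} {r : ℕ}
  {T : Cart X → Cart X → Cart X → ℝ} {l : Cart X → ℝ} {c : ℝ} {A : Cart X} {G : Fin r → Cart X} {p : Fin r → ℝ}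

theorem pw_add (G : Fin r → Cart X) (n m : Fin r → ℤ) : pw G (n + m) = pw G n * pw G m := by
  unfold pw
  rw [← Finset.prod_mul_distrib]
  exact Finset.prod_congr rfl fun i _ => by rw [Pi.add_apply, zpow_add]

theorem pw_smul (G : Fin r → Cart X) (n : Fin r → ℤ) (a : ℕ) : pw G (fun i => a * n i) = pw G n ^ a := by
  unfold pw
  rw [← Finset.prod_pow]
  refine Finset.prod_congr rfl fun i _ => ?_
  change G i ^ ((a : ℤ) * n i) = (G i ^ n i) ^ a
  rw [mul_comm, zpow_mul, zpow_natCast]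

theorem Near.add {B B' t t' : ℝ} {n n' : Fin r → ℤ} (h : Near p B t n) (h' : Near p B' t' n') :
    Near p (B + B') (t + t') (n + n') := by
  intro i
  have e : (((n + n') i : ℤ) : ℝ) - (t + t') * p i = ((n i : ℝ) - t * p i) + ((n' i : ℝ) - t' * p i) := by
    rw [Pi.add_apply, Int.cast_add]
    ring
  rw [e]
  exact (abs_add_le _ _).trans (add_le_add (h i) (h' i))

theorem Near.sub {B B' t t' : ℝ} {n n' : Fin r → ℤ} (h : Near p B t n) (h' : Near p B' t' n') :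
    Near p (B + B') (t - t') (n - n') := by
  intro i
  have e : (((n - n') i : ℤ) : ℝ) - (t - t') * p i = ((n i : ℝ) - t * p i) - ((n' i : ℝ) - t' * p i) := by
    rw [Pi.sub_apply, Int.cast_sub]
    ring
  rw [e]
  exact (abs_sub _ _).trans (add_le_add (h i) (h' i))

theorem Near.mono {B B' t : ℝ} {n : Fin r → ℤ} (h : Near p B t n) (hB : B ≤ B') : Near p B' t n :=
  fun i => (h i).trans hB

/-- finitely many classes in a bounded part of the box -/
theorem near_fin (p : Fin r → ℝ) (B t₀ t₁ : ℝ) : {n : Fin r → ℤ | ∃ t, t₀ ≤ t ∧ t ≤ t₁ ∧ Near p B t n}.Finite := by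
  refine Set.Finite.subset (Set.finite_Icc
    (fun i : Fin r => -⌈B + (|t₀| + |t₁|) * |p i|⌉) (fun i : Fin r => ⌈B + (|t₀| + |t₁|) * |p i|⌉)) ?_
  rintro n ⟨t, h0, h1, hn⟩
  have key : ∀ i, |(n i : ℝ)| ≤ B + (|t₀| + |t₁|) * |p i| := by
    intro i
    have ht : |t| ≤ |t₀| + |t₁| := by
      rw [abs_le]
      have h2 := neg_abs_le t₀
      have h3 := le_abs_self t₁
      have h4 := abs_nonneg t₀
      have h5 := abs_nonneg t₁
      constructor <;> linarith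
    have e : (n i : ℝ) = ((n i : ℝ) - t * p i) + t * p i := by ring
    rw [e]
    refine (abs_add_le _ _).trans (add_le_add (hn i) ?_)
    rw [abs_mul]
    exact mul_le_mul_of_nonneg_right ht (abs_nonneg _)
  refine ⟨fun i => ?_, fun i => ?_⟩
  · have h2 := (abs_le.1 (key i)).1
    have h3 := Int.le_ceil (B + (|t₀| + |t₁|) * |p i|)
    have h4 : ((-⌈B + (|t₀| + |t₁|) * |p i|⌉ : ℤ) : ℝ) ≤ (n i : ℝ) := by
      rw [Int.cast_neg]
      linarith
    exact_mod_cast h4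
  · have h2 := (abs_le.1 (key i)).2
    have h3 := Int.le_ceil (B + (|t₀| + |t₁|) * |p i|)
    have h4 : (n i : ℝ) ≤ ((⌈B + (|t₀| + |t₁|) * |p i|⌉ : ℤ) : ℝ) := by
      linarith
    exact_mod_cast h4

private theorem pw_eq (G : Fin r → Cart X) (n : Fin r → ℤ) :
    pw G n = (1 : Cart X) ^ 0 * ∏ i, G i ^ n i := by
  rw [pow_zero, one_mul]
  rfl

theorem pw_T (ht : Tri T) (n : Fin r → ℤ) (t : ℝ) (U V : Cart X) :
    T (pw G n) U V = t * pT T G p U V + ∑ i, ((n i : ℝ) - t * p i) * T (G i) U V := by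
  rw [pw_eq, W_T (p := p) ht 0 n t U V, Nat.cast_zero, zero_mul, zero_add]

theorem pw_pT (ht : Tri T) (n : Fin r → ℤ) (t : ℝ) (U : Cart X) :
    pT T G p (pw G n) U = t * pz T G p U + ∑ i, ((n i : ℝ) - t * p i) * pT T G p (G i) U := by
  rw [pw_eq, W_pT (p := p) ht 0 n t U, Nat.cast_zero, zero_mul, zero_add]

theorem pw_pz (ht : Tri T) (h3 : p3 T G p = 0) (n : Fin r → ℤ) (t : ℝ) :
    pz T G p (pw G n) = ∑ i, ((n i : ℝ) - t * p i) * pz T G p (G i) := by
  rw [pw_eq, W_pz (p := p) ht 0 n t, h3, Nat.cast_zero, zero_mul, zero_add, mul_zero, zero_add]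

/-- an additive function -/
theorem pw_dl {δ : Cart X → ℝ} (hδ : ∀ U V, δ (U * V) = δ U + δ V) (n : Fin r → ℤ) (t : ℝ) :
    δ (pw G n) = t * dl δ G p + ∑ i, ((n i : ℝ) - t * p i) * δ (G i) := by
  let f : Cart X →* Multiplicative ℝ :=
    MonoidHom.mk' (fun U => Multiplicative.ofAdd (δ U)) (fun U V => by
      rw [hδ, ofAdd_add])
  have hf : ∀ U, δ U = Multiplicative.toAdd (f U) := fun _ => rfl
  have h1 : δ (pw G n) = ∑ i, (n i : ℝ) * δ (G i) := by
    rw [hf, pw, map_prod, toAdd_prod]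
    refine Finset.sum_congr rfl fun i _ => ?_
    rw [map_zpow, toAdd_zpow, ← hf, zsmul_eq_mul]
  rw [h1]
  unfold dl
  rw [Finset.mul_sum, ← Finset.sum_add_distrib]
  exact Finset.sum_congr rfl fun i _ => by ring

theorem pw_ddd (ht : Tri T) (h3 : p3 T G p = 0) (n : Fin r → ℤ) (t : ℝ) :
    T (pw G n) (pw G n) (pw G n) = 3 * t ^ 2 * pz T G p (pw G n) +
      3 * t * (∑ i, ∑ j, ((n i : ℝ) - t * p i) * ((n j : ℝ) - t * p j) * pT T G p (G i) (G j)) +
      ∑ i, ∑ j, ∑ m, ((n i : ℝ) - t * p i) * ((n j : ℝ) - t * p j) * ((n m : ℝ) - t * p m) * T (G i) (G j) (G m) := by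
  obtain ⟨D, hD⟩ : ∃ D, D = pw G n := ⟨_, rfl⟩
  obtain ⟨w, hw⟩ : ∃ w : Fin r → ℝ, w = fun i => (n i : ℝ) - t * p i := ⟨_, rfl⟩
  have hw' : ∀ i, (n i : ℝ) - t * p i = w i := fun i => by rw [hw]
  simp only [hw']
  rw [← hD]
  have a1 : ∀ U V, T D U V = t * pT T G p U V + ∑ i, w i * T (G i) U V := by
    intro U V
    rw [hD, pw_T (p := p) ht n t U V]
    simp only [hw']
  have a2 : ∀ U, pT T G p D U = t * pz T G p U + ∑ i, w i * pT T G p (G i) U := by
    intro U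
    rw [hD, pw_pT ht n t U]
    simp only [hw']
  have a3 : pz T G p D = ∑ i, w i * pz T G p (G i) := by
    rw [hD, pw_pz ht h3 n t]
    simp only [hw']
  obtain ⟨Q, hQ⟩ : ∃ Q, Q = ∑ i, ∑ j, w i * w j * pT T G p (G i) (G j) := ⟨_, rfl⟩
  obtain ⟨R, hR⟩ : ∃ R, R = ∑ i, ∑ j, ∑ m, w i * w j * w m * T (G i) (G j) (G m) := ⟨_, rfl⟩
  rw [← hQ, ← hR]
  have b1 : ∀ i, pT T G p (G i) D = t * pz T G p (G i) + ∑ j, w j * pT T G p (G i) (G j) := by
    intro i
    rw [pT_comm ht, a2]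
    congr 1
    exact Finset.sum_congr rfl fun j _ => by rw [pT_comm ht]
  have b2 : ∑ i, w i * pT T G p (G i) D = t * pz T G p D + Q := by
    rw [a3, hQ, Finset.mul_sum, ← Finset.sum_add_distrib]
    refine Finset.sum_congr rfl fun i _ => ?_
    rw [b1, mul_add, Finset.mul_sum]
    congr 1
    · ring
    · exact Finset.sum_congr rfl fun j _ => by ring
  have b3 : ∀ i j, T (G j) (G i) D = t * pT T G p (G i) (G j) + ∑ m, w m * T (G i) (G j) (G m) := by
    intro i j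
    rw [ht.s23, ht.s12, a1, pT_comm ht]
    congr 1
    exact Finset.sum_congr rfl fun m _ => by rw [ht.s12, ht.s23, ht.s12]
  have b4 : ∑ i, ∑ j, w i * w j * T (G j) (G i) D = t * Q + R := by
    rw [hQ, hR, Finset.mul_sum, ← Finset.sum_add_distrib]
    refine Finset.sum_congr rfl fun i _ => ?_
    rw [Finset.mul_sum, ← Finset.sum_add_distrib]
    refine Finset.sum_congr rfl fun j _ => ?_
    rw [b3, mul_add, Finset.mul_sum]
    congr 1
    · ring
    · exact Finset.sum_congr rfl fun m _ => by ring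
  have b5 : ∑ i, w i * T (G i) D D = t * (t * pz T G p D + Q) + (t * Q + R) := by
    rw [← b2, ← b4, Finset.mul_sum, ← Finset.sum_add_distrib]
    refine Finset.sum_congr rfl fun i _ => ?_
    rw [ht.s12, a1, mul_add, Finset.mul_sum]
    congr 1
    · ring
    · exact Finset.sum_congr rfl fun j _ => by ring
  rw [a1, a2, b2, b5]
  ring

/-- bounded errors -/
theorem sum_le {m : ℕ} {B : ℝ} (w F : Fin m → ℝ) (hw : ∀ i, |w i| ≤ B) : |∑ i, w i * F i| ≤ B * ∑ i, |F i| := by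
  rw [Finset.mul_sum]
  refine (Finset.abs_sum_le_sum_abs _ _).trans (Finset.sum_le_sum fun i _ => ?_)
  rw [abs_mul]
  exact mul_le_mul_of_nonneg_right (hw i) (abs_nonneg _)

theorem sum_le2 {m : ℕ} {B : ℝ} (w : Fin m → ℝ) (F : Fin m → Fin m → ℝ) (hw : ∀ i, |w i| ≤ B) :
    |∑ i, ∑ j, w i * w j * F i j| ≤ B ^ 2 * ∑ i, ∑ j, |F i j| := by
  rw [Finset.mul_sum]
  refine (Finset.abs_sum_le_sum_abs _ _).trans (Finset.sum_le_sum fun i _ => ?_)
  rw [Finset.mul_sum]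
  refine (Finset.abs_sum_le_sum_abs _ _).trans (Finset.sum_le_sum fun j _ => ?_)
  rw [abs_mul, abs_mul, pow_two]
  have hB : 0 ≤ B := (abs_nonneg _).trans (hw i)
  exact mul_le_mul_of_nonneg_right (mul_le_mul (hw i) (hw j) (abs_nonneg _) hB) (abs_nonneg _)

theorem sum_le3 {m : ℕ} {B : ℝ} (w : Fin m → ℝ) (F : Fin m → Fin m → Fin m → ℝ) (hw : ∀ i, |w i| ≤ B) :
    |∑ i, ∑ j, ∑ e, w i * w j * w e * F i j e| ≤ B ^ 3 * ∑ i, ∑ j, ∑ e, |F i j e| := by
  rw [Finset.mul_sum]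
  refine (Finset.abs_sum_le_sum_abs _ _).trans (Finset.sum_le_sum fun i _ => ?_)
  rw [Finset.mul_sum]
  refine (Finset.abs_sum_le_sum_abs _ _).trans (Finset.sum_le_sum fun j _ => ?_)
  rw [Finset.mul_sum]
  refine (Finset.abs_sum_le_sum_abs _ _).trans (Finset.sum_le_sum fun e _ => ?_)
  rw [abs_mul, abs_mul, abs_mul]
  have hB : 0 ≤ B := (abs_nonneg _).trans (hw i)
  have e3 : B ^ 3 = B * B * B := by ring
  rw [e3]
  exact mul_le_mul_of_nonneg_right (mul_le_mul (mul_le_mul (hw i) (hw j) (abs_nonneg _) hB) (hw e)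
    (abs_nonneg _) (mul_nonneg hB hB)) (abs_nonneg _)

end Pool.Agent.H89.ZN
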