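import Pool.Agent.H89.ZN.Exp
import Pool.Agent.H24.ZL.LowZ

/-!
# [H89 ZN Low] THEOREM Z (MP_e49dc9_ag): the number of sections of the classes near `t p` (case `T(p,p,A) > 0`)

`pAA_pos`: `T(p,A,A) > 0`: for integral `E` the index theorem (`hdg_L` of `H24/VP/HdA.lean` or `hdg_W` of `H36/TQ/Exc.lean`) gives
`T(A,A,A) T(E,E,A) ≤ T(A,A,E) ^ 2`; with `E = pw G m`, `m i = ⌊s p i⌋`, divide by `s ^ 2`, `s → ∞`: `T(A,A,A) pz A ≤ (pT A A) ^ 2`, and `0 ≤ pT A A` (`pT_amp`).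
`pz_sec`: a class with sections has `0 ≤ pz`: a section `f` gives `prin X f hf * D` effective, with the same `pz` (`numz_prin`, `numz_T`), `pz_eff`.
`low_box`: `low_z'` of `H24/ZL/LowZ.lean` with `R₀ = 1` (`t1 = pT`, `bf T A G p p = pz T G p A`; its hypothesis `hnef` is `pT_lim`), `chi = T D D D / 6 + l D + c`, `pw_ddd`,
`pw_dl` for `l`: `h0 ≥ t² pz / 2 + t (l(p) - B₀² Q₁ / 2) - C`, `Q₁ = ∑∑ |pT (G i) (G j)|`; choose `B₀ ≤ 1` with `B₀² Q₁ ≤ l(p)`, so `h0 ≥ t² pz / 2 + t l(p) / 2 - C`,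
`c₀ = l(p) / 4`, `t ≥ 4 C / l(p)`.
-/

set_option autoImplicit false

namespace Pool.Agent.H89.ZN

open Pool.Agent.H54.RV Pool.Agent.H83.TU Pool.Agent.H83.TK Pool.Agent.H24.VP Pool.Agent.H39.TQ Pool.Agent.H36.TZ

variable {k K : Type} [Field k] [Field K] [Algebra k K] {X : Mod k K} {r : ℕ}
  {T : Cart X → Cart X → Cart X → ℝ} {l : Cart X → ℝ} {c : ℝ} {A : Cart X} {G : Fin r → Cart X} {p : Fin r → ℝ}

theorem pAA_pos [CharZero k] [T0Space X.P] (h : Hyp X) (hp : Pnt T l c A G p) (ha : 0 < pz T G p A) :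
    0 < pT T G p A A := by
  sorry

theorem pz_sec [CharZero k] [T0Space X.P] (h : Hyp X) (hr : RR T l c) (hp : Rn G p A) {D : Cart X}
    (hD : 0 < h0 D 1) : 0 ≤ pz T G p D := by
  sorry

theorem low_box [CharZero k] [T0Space X.P] (h : Hyp X) (hp : Pnt T l c A G p) (ha : 0 < pz T G p A) :
    ∃ B₀ c₀ t₁ : ℝ, 0 < B₀ ∧ B₀ ≤ 1 ∧ 0 < c₀ ∧ 1 ≤ t₁ ∧ ∀ (n : Fin r → ℤ) (t : ℝ), t₁ ≤ t → Near p B₀ t n →
      t ^ 2 * pz T G p (pw G n) / 2 + c₀ * t ≤ h0 (pw G n) 1 := by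
  sorry

end Pool.Agent.H89.ZN
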